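import Mathlib

set_option autoImplicit false

namespace Pool.Agent.H.MP_95d7dd_gt

/-- `U` is a bounded regular-open set. -/
def IsRO {V : Type} [MetricSpace V] (U : Set V) : Prop :=
  interior (closure U) = U ∧ Bornology.IsBounded U

/-- Equidecomposability with bounded regular-open pieces, joins in place of unions. -/
def Equi {V : Type} [MetricSpace V] (A B : Set V) : Prop :=
  ∃ (k : ℕ) (P Q : Fin k → Set V) (g : Fin k → V ≃ᵢ V),
    (∀ i, IsRO (P i)) ∧ (∀ i, IsRO (Q i)) ∧
    Pairwise (fun i j => Disjoint (P i) (P j)) ∧ Pairwise (fun i j => Disjoint (Q i) (Q j)) ∧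
    A = interior (closure (⋃ i, P i)) ∧ B = interior (closure (⋃ i, Q i)) ∧
    ∀ i, g i '' P i = Q i

/-- The translate `A + s` is at positive distance from `A`. -/
def Apart {V : Type} [NormedAddCommGroup V] (A : Set V) (s : V) : Prop :=
  ∃ δ : ℝ, 0 < δ ∧ ∀ x ∈ A, ∀ y ∈ A, δ ≤ dist x (y + s)

end Pool.Agent.H.MP_95d7dd_gt
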