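import Pool.Agent.H.MP_95d7dd_gt.Plane
import Pool.Agent.H.MP_95d7dd_gt.Defs
import Pool.Agent.H.MP_bf94fe_gt.Main

set_option autoImplicit false

namespace Pool.Agent.H.MP_95d7dd_gt

open Filter Topology Set Pool.Agent.H.MP_bf94fe_gt

section gen

variable {V W : Type} [MetricSpace V] [MetricSpace W]

lemma disj_reg' {U U' : Set V} (hU : IsOpen U) (h : Disjoint U U') :
    Disjoint (interior (closure U)) (interior (closure U')) :=
  (((h.closure_right hU).mono_right interior_subset).closure_left isOpen_interior).mono_left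
    interior_subset

lemma clos_reg' {J : Type} {Q : J → Set V} (hQ : ∀ j, IsOpen (Q j)) :
    closure (⋃ j, interior (closure (Q j))) = closure (⋃ j, Q j) :=
  Subset.antisymm (closure_minimal (iUnion_subset fun j => interior_subset.trans
    (closure_mono (subset_iUnion Q j))) isClosed_closure)
    (closure_mono (iUnion_mono fun j => (hQ j).subset_interior_closure))

lemma im_reg (f : V ≃ᵢ W) (U : Set V) :
    f '' interior (closure U) = interior (closure (f '' U)) := by
  have a := f.toHomeomorph.image_interior (closure U)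
  rw [f.toHomeomorph.image_closure] at a
  exact a

lemma IsRO.image (f : V ≃ᵢ W) {U : Set V} (h : IsRO U) : IsRO (f '' U) :=
  ⟨by rw [← im_reg, h.1], f.isometry.lipschitz.isBounded_image h.2⟩

lemma IsRO.isOpen {U : Set V} (h : IsRO U) : IsOpen U := h.1 ▸ isOpen_interior

lemma Equi.of_open {J : Type} [Fintype J] {A B : Set V} (hA : interior (closure A) = A)
    (hB : interior (closure B) = B) (Q : J → Set V) (f : J → V ≃ᵢ V) (h1 : ∀ j, IsOpen (Q j))
    (h2 : ∀ j, Bornology.IsBounded (Q j)) (h3 : Pairwise fun i j => Disjoint (Q i) (Q j))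
    (h4 : Pairwise fun i j => Disjoint (f i '' Q i) (f j '' Q j))
    (h5 : closure (⋃ j, Q j) = closure A) (h6 : closure (⋃ j, f j '' Q j) = closure B) :
    Equi A B := by
  set e := (Fintype.equivFin J).symm
  have op : ∀ j, IsOpen (f j '' Q j) := fun j => (f j).toHomeomorph.isOpenMap _ (h1 j)
  have ro : ∀ j, IsRO (interior (closure (Q j))) := fun j =>
    ⟨interior_closure_idem, (h2 _).closure.subset interior_subset⟩
  refine ⟨_, fun k => interior (closure (Q (e k))), fun k => f (e k) '' interior (closure (Q (e k))),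
    fun k => f (e k), fun k => ro _, fun k => (ro _).image _,
    fun k l h => disj_reg' (h1 _) (h3 (e.injective.ne h)), fun k l h => ?_, ?_, ?_, fun _ => rfl⟩
  · dsimp only
    rw [im_reg, im_reg]
    exact disj_reg' (op _) (h4 (e.injective.ne h))
  · rw [e.surjective.iUnion_comp fun j => interior (closure (Q j)), clos_reg' h1, h5, hA]
  · rw [e.surjective.iUnion_comp fun j => f j '' interior (closure (Q j))]
    simp only [im_reg]
    rw [clos_reg' op, h6, hB]

lemma Equi.image (e : V ≃ᵢ W) {A B : Set V} (h : Equi A B) : Equi (e '' A) (e '' B) := by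
  obtain ⟨k, P, Q, g, h1, h2, h3, h4, h5, h6, h7⟩ := h
  refine ⟨k, fun i => e '' P i, fun i => e '' Q i, fun i => (e.symm.trans (g i)).trans e,
    fun i => (h1 i).image e, fun i => (h2 i).image e,
    fun i j h => (disjoint_image_iff e.injective).2 (h3 h),
    fun i j h => (disjoint_image_iff e.injective).2 (h4 h), ?_, ?_, fun i => ?_⟩
  · rw [h5, im_reg, image_iUnion]
  · rw [h6, im_reg, image_iUnion]
  · dsimp only
    rw [← h7, image_image, image_image]
    simp

lemma reg_res {U U' : Set V} (hU : IsOpen U) (hV : IsOpen U')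
    (h : interior (closure U) = interior (closure U')) :
    ∀ᶠ y in residual V, (y ∈ U) = (y ∈ U') := by
  have e : closure U = closure U' := Subset.antisymm
    (closure_minimal (hU.subset_interior_closure.trans (h ▸ interior_subset)) isClosed_closure)
    (closure_minimal (hV.subset_interior_closure.trans (h ▸ interior_subset)) isClosed_closure)
  filter_upwards [res_open hU, res_open hV] with y a b
  exact propext ⟨fun h => b.resolve_right fun h' => h' (e ▸ subset_closure h),
    fun h => a.resolve_right fun h' => h' (e ▸ subset_closure h)⟩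

end gen

/-- The cancellation statement in a normed space. -/
def Canc (V : Type) [NormedAddCommGroup V] : Prop :=
  ∀ A B : Set V, IsRO A → IsRO B → ∀ s t : V, Disjoint A ((fun x => x + s) '' A) →
    Disjoint B ((fun x => x + t) '' B) →
    Equi (A ∪ (fun x => x + s) '' A) (B ∪ (fun x => x + t) '' B) → Equi A B

lemma Canc.transfer {V W : Type} [NormedAddCommGroup V] [NormedAddCommGroup W] [NormedSpace ℝ V]
    [NormedSpace ℝ W] (e : V ≃ₗᵢ[ℝ] W) (h : Canc W) : Canc V := by
  intro A B hA hB s t dA dB hE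
  have im : ∀ (U : Set V) (s : V), e.toIsometryEquiv '' ((fun x => x + s) '' U) =
      (fun x => x + e s) '' (e.toIsometryEquiv '' U) := fun U s => by
    rw [image_image, image_image]
    simp
  have := (h _ _ (hA.image e.toIsometryEquiv) (hB.image e.toIsometryEquiv) (e s) (e t)
    (by rw [← im]; exact (disjoint_image_iff e.injective).2 dA)
    (by rw [← im]; exact (disjoint_image_iff e.injective).2 dB)
    (by rw [← im, ← im, ← image_union, ← image_union]; exact hE.image _)).image
      e.toIsometryEquiv.symm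
  simpa [image_image] using this

lemma canc_real : Canc ℝ := by
  rintro A B hA hB s t dA dB ⟨k, P, Q, g, h1, -, h3, h4, h5, h6, h7⟩
  obtain ⟨n, R, f, r1, r2, r3, r4, r5⟩ := main hA.1 hA.2 hB.1 hB.2 s t dA dB
    ⟨k, P, g, h1, h3, by simpa only [h7] using h4, by rw [h5, interior_closure_idem],
      by simp only [h7]; rw [h6, interior_closure_idem]⟩
  exact ⟨n, R, fun i => f i '' R i, f, r1, fun i => IsRO.image _ (r1 i), r2, r3, r4.symm, r5.symm,
    fun _ => rfl⟩

lemma back {A B : Set ℂ} (hA : IsRO A) (hB : IsRO B)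
    (h : Eqd Af (fun y => ind (y ∈ A)) (fun y => ind (y ∈ B))) : Equi A B := by
  classical
  obtain ⟨m, γ, π, r1, r2, r3⟩ := h
  have oA := hA.isOpen
  have oB := hB.isOpen
  set O : Fin m → Set ℂ := fun i => {y | ∀ᶠ z in 𝓝 y, π i z = 1} with hO
  have oO : ∀ i, IsOpen (O i) := fun i => isOpen_setOf_eventually_nhds
  set F : Fin m → ℂ ≃ᵢ ℂ := fun j =>
    (γ j).l.toIsometryEquiv.trans (IsometryEquiv.addRight (γ j).t) with hF
  have hγ : ∀ i x, F i x = γ i • x := fun i x => rfl
  have one : ∀ (ρ : Fin m → ℂ → ℕ) (p : ℂ → Prop),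
      (∀ᶠ y in residual _, ∑ i, ρ i y = ind (p y)) → ∀ i j y, (∀ᶠ z in 𝓝 y, ρ i z = 1) →
      (∀ᶠ z in 𝓝 y, ρ j z = 1) → i = j := by
    intro ρ p h i j y a b
    by_contra hne
    obtain ⟨z, z3, z1, z2⟩ := (dense_of_mem_residual h).inter_nhds_nonempty (a.and b)
    have z3' : ∑ i, ρ i z = ind (p z) := z3
    have := Finset.add_le_sum (s := Finset.univ) (f := fun i => ρ i z)
      (fun _ _ => Nat.zero_le _) (Finset.mem_univ i) (Finset.mem_univ j) hne
    have := ind_le (p z)
    omega
  have O2 : ∀ i y, y ∈ O i → ∀ᶠ z in 𝓝 (γ i • y), π i ((γ i)⁻¹ • z) = 1 := fun i y hy =>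
    (continuous_const_smul (γ i)⁻¹).continuousAt.eventually (p := fun z => π i z = 1)
      (by simpa [hO] using hy)
  have pick : ∀ (ρ : Fin m → ℕ) (p : Prop), ∑ i, ρ i = ind p → p → ∃ i, ρ i = 1 := by
    intro ρ p e hp
    rw [ind_pos hp] at e
    obtain ⟨i, -, hi⟩ := Finset.exists_ne_zero_of_sum_ne_zero (s := Finset.univ) (f := ρ) (by omega)
    have := Finset.single_le_sum (f := ρ) (fun _ _ => Nat.zero_le _) (Finset.mem_univ i)
    exact ⟨i, by omega⟩
  have pick' : ∀ (ρ : Fin m → ℕ) (p : Prop) (i), ∑ i, ρ i = ind p → ρ i = 1 → p := by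
    intro ρ p i e hi
    by_contra hp
    rw [ind_neg hp] at e
    have := Finset.single_le_sum (f := ρ) (fun _ _ => Nat.zero_le _) (Finset.mem_univ i)
    omega
  refine Equi.of_open hA.1 hB.1 (fun j => A ∩ O j ∩ F j ⁻¹' B) F
    (fun j => (oA.inter (oO _)).inter (oB.preimage (F j).continuous))
    (fun j => hA.2.subset fun x hx => hx.1.1) ?_ ?_ ?_ ?_
  · intro i j hne
    exact disjoint_left.2 fun x a b => hne (one π _ r2 i j _ a.1.2 b.1.2)
  · intro i j hne
    refine disjoint_left.2 ?_
    rintro _ ⟨x, a, rfl⟩ ⟨x', b, e⟩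
    rw [hγ, hγ] at e
    exact hne (one (fun i z => π i ((γ i)⁻¹ • z)) _ r3 i j _ (O2 i _ a.1.2) (e ▸ O2 j _ b.1.2))
  · refine Subset.antisymm (closure_mono (iUnion_subset fun j x hx => hx.1.1))
      (closure_minimal (fun x hx => mem_closure_iff.2 fun U hU hxU => ?_) isClosed_closure)
    obtain ⟨x', hx', ⟨a, b⟩, c⟩ := (dense_of_mem_residual ((r2.and
      (eventually_all.2 r1)).and (eventually_all.2 fun i => res_smul (γ i) r3))).inter_open_nonempty
      _ (hU.inter oA) ⟨x, hxU, hx⟩
    obtain ⟨i, hi⟩ := pick _ _ a hx'.2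
    exact ⟨x', hx'.1, mem_iUnion.2 ⟨i, ⟨hx'.2, (b i).mono fun z hz => hz.trans hi⟩,
      pick' _ _ i (c i) (by rwa [inv_smul_smul])⟩⟩
  · refine Subset.antisymm (closure_mono (iUnion_subset ?_))
      (closure_minimal (fun x hx => mem_closure_iff.2 fun U hU hxU => ?_) isClosed_closure)
    · rintro j _ ⟨x, hx, rfl⟩
      exact hx.2
    obtain ⟨y, hy, a, c⟩ := (dense_of_mem_residual (r3.and (eventually_all.2 fun i =>
      res_smul (γ i)⁻¹ (r2.and (r1 i))))).inter_open_nonempty _ (hU.inter oB) ⟨x, hxU, hx⟩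
    obtain ⟨i, hi⟩ := pick _ _ a hy.2
    have e : F i ((γ i)⁻¹ • y) = y := by rw [hγ, smul_inv_smul]
    refine ⟨y, hy.1, mem_iUnion.2 ⟨i, (γ i)⁻¹ • y, ⟨⟨pick' _ _ i (c i).1 hi, ?_⟩,
      by rw [mem_preimage, e]; exact hy.2⟩, e⟩⟩
    have := (c i).2
    rw [hi] at this
    exact this

lemma canc_complex : Canc ℂ := by
  rintro A B hA hB s t dA dB ⟨n, P, Q, g, p1, q1, p2, p3, p4, p5, p6⟩
  have oA := hA.isOpen
  have oB := hB.isOpen
  have oP := fun i => (p1 i).isOpen
  have oG := fun i => (q1 i).isOpen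
  have oA' : IsOpen ((fun x => x + s) '' A) := isOpenMap_add_right s _ oA
  have oB' : IsOpen ((fun x => x + t) '' B) := isOpenMap_add_right t _ oB
  rcases A.eq_empty_or_nonempty with rfl | hne
  · have e1 : ∀ i, P i = ∅ := fun i => by
      have := (subset_iUnion P i).trans (isOpen_iUnion oP).subset_interior_closure
      rw [← p4] at this
      simpa using this
    have e2 : B = ∅ := by
      have : B ⊆ _ := subset_union_left.trans p5.subset
      simpa [← p6, e1] using this
    exact ⟨0, Fin.elim0, Fin.elim0, Fin.elim0, fun i => i.elim0, fun i => i.elim0,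
      fun i => i.elim0, fun i => i.elim0, by simp, by simp [e2], fun i => i.elim0⟩
  have bP : Bornology.IsBounded (⋃ i, P i) := Bornology.isBounded_iUnion.2 fun i => (p1 i).2
  have bG : Bornology.IsBounded (⋃ i, Q i) := Bornology.isBounded_iUnion.2 fun i => (q1 i).2
  have bA' : Bornology.IsBounded ((fun x => x + s) '' A) :=
    (isometry_add_right s).lipschitz.isBounded_image hA.2
  have bB' : Bornology.IsBounded ((fun x => x + t) '' B) :=
    (isometry_add_right t).lipschitz.isBounded_image hB.2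
  obtain ⟨r, hr⟩ := (((hA.2.union bA').union (hB.2.union bB')).union
    (bP.union bG)).subset_closedBall 0
  simp only [union_subset_iff, iUnion_subset_iff] at hr
  obtain ⟨⟨⟨s1, s2⟩, s3, s4⟩, s5, s6⟩ := hr
  set a : Fin n → Af := fun i => ⟨(g i).toRealLinearIsometryEquiv, g i 0⟩ with ha
  have he : ∀ i x, a i • x = g i x := fun i x => by simp [ha, Af.smul_def]
  have nz : ∀ p : Prop, (ind p : ℤ) ≠ 0 → p := fun p h => by_contra fun c => by
    simp [ind_neg c] at h
  have pm : ∀ (b : Af) (f : ℂ → ℂ), (∀ x, b • x = f x) → ∀ (S : Set ℂ) (y : ℂ),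
      b⁻¹ • y ∈ S ↔ y ∈ f '' S := fun b f h S y =>
    ⟨fun c => ⟨_, c, by rw [← h, smul_inv_smul]⟩, by
      rintro ⟨x, hx, rfl⟩
      rwa [← h, inv_smul_smul]⟩
  refine back hA hB (plane_half (ι := Fin n ⊕ Bool)
    (Sum.elim a fun b => cond b ⟨1, s⟩ ⟨1, t⟩) (R := r)
    (ψ := fun y => Sum.elim (fun i => (ind (y ∈ P i) : ℤ))
      fun b => cond b (ind (y ∈ A)) (-ind (y ∈ B)))
    (Lc.pi (f := fun (i : Fin n ⊕ Bool) y => Sum.elim (fun i => (ind (y ∈ P i) : ℤ))
      (fun b => cond b (ind (y ∈ A)) (-ind (y ∈ B))) i) ?_) ?_ ?_ oA oB hne ?_)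
  · rintro (i | _ | _)
    · exact (Lc.of_isOpen (oP i)).comp fun p => (ind p : ℤ)
    · exact (Lc.of_isOpen oB).comp fun p => -(ind p : ℤ)
    · exact (Lc.of_isOpen oA).comp fun p => (ind p : ℤ)
  · rintro y (i | _ | _) <;> simp [ind_le]
  · rintro y (i | _ | _) h
    · have := nz _ h
      exact ⟨mem_closedBall_zero_iff.1 (s5 i this), mem_closedBall_zero_iff.1
        (s6 i (p6 i ▸ ⟨y, this, (he i y).symm⟩))⟩
    · have := nz _ (neg_ne_zero.1 h)
      exact ⟨mem_closedBall_zero_iff.1 (s3 this), mem_closedBall_zero_iff.1 (s4 ⟨y, this, rfl⟩)⟩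
    · have := nz _ h
      exact ⟨mem_closedBall_zero_iff.1 (s1 this), mem_closedBall_zero_iff.1 (s2 ⟨y, this, rfl⟩)⟩
  · filter_upwards [reg_res (isOpen_iUnion oP) (oA.union oA')
        (by rw [p4, interior_closure_idem]),
      reg_res (isOpen_iUnion oG) (oB.union oB') (by rw [p5, interior_closure_idem])] with y b c
    have c1 := ind_iUnion p2 y
    have c2 := ind_iUnion p3 y
    rw [b, ind_union dA] at c1
    rw [c, ind_union dB] at c2
    have m1 := fun i => pm (a i) (g i) (he i) (P i) y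
    have m2 := pm ⟨1, s⟩ (fun x => x + s) (fun _ => rfl) A y
    have m3 := pm ⟨1, t⟩ (fun x => x + t) (fun _ => rfl) B y
    simp only [dv, Fintype.sum_sum_type, Fintype.sum_bool, Sum.elim_inl, Sum.elim_inr, cond_true,
      cond_false, m1, m2, m3, p6]
    zify at c1 c2
    linarith

lemma Apart.disjoint {V : Type} [NormedAddCommGroup V] {A : Set V} {s : V} (h : Apart A s) :
    Disjoint A ((fun x => x + s) '' A) := by
  obtain ⟨δ, h0, h⟩ := h
  refine disjoint_left.2 ?_
  rintro _ hx ⟨y, hy, rfl⟩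
  have := h _ hx y hy
  rw [dist_self] at this
  linarith

theorem canc (n : ℕ) (hn : n = 1 ∨ n = 2) : Canc (EuclideanSpace ℝ (Fin n)) := by
  rcases hn with rfl | rfl
  · exact canc_real.transfer (OrthonormalBasis.singleton (Fin 1) ℝ).repr.symm
  · exact canc_complex.transfer Complex.orthonormalBasisOneI.repr.symm

end Pool.Agent.H.MP_95d7dd_gt
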