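import Pool.Agent.H.MP_95d7dd_gt.Hall

set_option autoImplicit false

namespace Pool.Agent.H.MP_95d7dd_gt

open Filter Topology Finset Pointwise Complex Pool.Agent.H.MP_bf94fe_gt

/-- Isometries of the plane. -/
@[ext] structure Af where
  l : ℂ ≃ₗᵢ[ℝ] ℂ
  t : ℂ

lemma lie_mul (a b : ℂ ≃ₗᵢ[ℝ] ℂ) (x : ℂ) : (a * b) x = a (b x) := rfl
lemma lie_one (x : ℂ) : (1 : ℂ ≃ₗᵢ[ℝ] ℂ) x = x := rfl
lemma lie_inv (a : ℂ ≃ₗᵢ[ℝ] ℂ) (x : ℂ) : a⁻¹ (a x) = x := a.symm_apply_apply x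
lemma lie_inv' (a : ℂ ≃ₗᵢ[ℝ] ℂ) (x : ℂ) : a (a⁻¹ x) = x := a.apply_symm_apply x

noncomputable instance : Group Af where
  mul a b := ⟨a.l * b.l, a.t + a.l b.t⟩
  one := ⟨1, 0⟩
  inv a := ⟨a.l⁻¹, -(a.l⁻¹ a.t)⟩
  mul_assoc a b c := Af.ext (mul_assoc _ _ _) (by
    show a.t + a.l b.t + (a.l * b.l) c.t = a.t + a.l (b.t + b.l c.t)
    rw [map_add, lie_mul, add_assoc])
  one_mul a := Af.ext (one_mul _) (by
    show 0 + (1 : ℂ ≃ₗᵢ[ℝ] ℂ) a.t = a.t
    simp)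
  mul_one a := Af.ext (mul_one _) (by
    show a.t + a.l 0 = a.t
    simp)
  inv_mul_cancel a := Af.ext (inv_mul_cancel _) (by
    show -(a.l⁻¹ a.t) + a.l⁻¹ a.t = 0
    simp)

@[simp] lemma Af.mul_l (a b : Af) : (a * b).l = a.l * b.l := rfl
@[simp] lemma Af.mul_t (a b : Af) : (a * b).t = a.t + a.l b.t := rfl
@[simp] lemma Af.one_l : (1 : Af).l = 1 := rfl
@[simp] lemma Af.one_t : (1 : Af).t = 0 := rfl
@[simp] lemma Af.inv_l (a : Af) : a⁻¹.l = a.l⁻¹ := rfl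
@[simp] lemma Af.inv_t (a : Af) : a⁻¹.t = -(a.l⁻¹ a.t) := rfl

noncomputable instance : MulAction Af ℂ where
  smul a x := a.l x + a.t
  one_smul x := by
    show (1 : ℂ ≃ₗᵢ[ℝ] ℂ) x + 0 = x
    simp
  mul_smul a b x := by
    show (a.l * b.l) x + (a.t + a.l b.t) = a.l (b.l x + b.t) + a.t
    rw [map_add, lie_mul]
    abel

lemma Af.smul_def (a : Af) (x : ℂ) : a • x = a.l x + a.t := rfl

instance : ContinuousConstSMul Af ℂ where
  continuous_const_smul a := by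
    show Continuous fun x => a.l x + a.t
    fun_prop

lemma af_free (g : Af) (hg : g ≠ 1) : ∀ᶠ x in residual ℂ, g • x ≠ x := by
  have c : IsClosed {x : ℂ | g • x = x} := isClosed_eq (continuous_const_smul g) continuous_id
  refine residual_of_dense_open c.isOpen_compl (interior_eq_empty_iff_dense_compl.1 ?_)
  refine Set.eq_empty_of_forall_notMem fun x hx => hg ?_
  obtain ⟨r, hr, hb⟩ := Metric.mem_nhds_iff.1 (mem_interior_iff_mem_nhds.1 hx)
  have h0 : g.l x + g.t = x := hb (Metric.mem_ball_self hr)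
  have h1 : ∀ v : ℂ, ‖v‖ = 1 → g.l v = v := by
    intro v hv
    have : g.l (x + (r / 2 : ℝ) • v) + g.t = x + (r / 2 : ℝ) • v := hb (by
      rw [mem_ball_iff_norm, add_sub_cancel_left, norm_smul, hv, Real.norm_of_nonneg (by linarith)]
      linarith)
    rw [map_add, map_smul, add_right_comm, h0, add_right_inj] at this
    exact smul_right_injective ℂ (show (r / 2 : ℝ) ≠ 0 by linarith) this
  have h2 : ∀ v : ℂ, g.l v = v := by
    intro v
    have : v = v.re • (1 : ℂ) + v.im • I := by simp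
    rw [this, map_add, map_smul, map_smul, h1 1 (by simp), h1 I (by simp)]
  refine Af.ext (LinearIsometryEquiv.ext h2) ?_
  rw [h2] at h0
  simpa using h0

def Lat (ε : ℝ) : AddSubgroup ℂ where
  carrier := {v | ∃ m n : ℤ, v.re = m * ε ∧ v.im = n * ε}
  add_mem' := by
    rintro a b ⟨m, n, h1, h2⟩ ⟨m', n', h3, h4⟩
    exact ⟨m + m', n + n', by simp [h1, h3, add_mul], by simp [h2, h4, add_mul]⟩
  zero_mem' := ⟨0, 0, by simp, by simp⟩
  neg_mem' := by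
    rintro a ⟨m, n, h1, h2⟩
    exact ⟨-m, -n, by simp [h1], by simp [h2]⟩

variable {ε : ℝ}

lemma int_small (hε : 0 < ε) {m : ℤ} (h : |m * ε| < ε) : m = 0 := by
  rw [abs_mul, abs_of_pos hε, ← Int.cast_abs] at h
  have : ((|m| : ℤ) : ℝ) < 1 := by nlinarith
  have : |m| < 1 := by exact_mod_cast this
  exact Int.abs_lt_one_iff.1 this

lemma Lat.small (hε : 0 < ε) {v : ℂ} (hv : v ∈ Lat ε) (h : ‖v‖ < ε) : v = 0 := by
  obtain ⟨m, n, h1, h2⟩ := hv
  have a := int_small hε (h1 ▸ (abs_re_le_norm v).trans_lt h)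
  have b := int_small hε (h2 ▸ (abs_im_le_norm v).trans_lt h)
  exact Complex.ext (by simp [h1, a]) (by simp [h2, b])

lemma Lat.near (hε : 0 < ε) (w : ℂ) : ∃ μ ∈ Lat ε, ‖w + μ‖ ≤ 2 * ε := by
  have h : ∀ a : ℝ, |a + (-⌊a / ε⌋ : ℤ) * ε| ≤ ε := fun a => by
    have h1 := (le_div_iff₀ hε).1 (Int.floor_le (a / ε))
    have h2 := (div_lt_iff₀ hε).1 (Int.lt_floor_add_one (a / ε))
    push_cast
    rw [abs_le]
    constructor <;> nlinarith
  refine ⟨⟨(-⌊w.re / ε⌋ : ℤ) * ε, (-⌊w.im / ε⌋ : ℤ) * ε⟩, ⟨_, _, rfl, rfl⟩,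
    (norm_le_abs_re_add_abs_im _).trans ?_⟩
  have := h w.re
  have := h w.im
  simp only [add_re, add_im]
  linarith

lemma Lat.finite (hε : 0 < ε) (w : ℂ) (ρ : ℝ) : {μ | μ ∈ Lat ε ∧ ‖w + μ‖ ≤ ρ}.Finite := by
  obtain ⟨K, hK⟩ := exists_nat_gt ((ρ + ‖w‖) / ε)
  rw [div_lt_iff₀ hε] at hK
  have h : ∀ m : ℤ, |m * ε| ≤ ρ + ‖w‖ → m ∈ Set.Icc (-(K : ℤ)) K := fun m hm => by
    rw [abs_mul, abs_of_pos hε, ← Int.cast_abs] at hm
    have : ((|m| : ℤ) : ℝ) < K := by nlinarith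
    have : |m| < K := by exact_mod_cast this
    exact abs_le.1 this.le
  refine (((Set.finite_Icc (-(K : ℤ)) K).prod (Set.finite_Icc (-(K : ℤ)) K)).image
    fun p => (⟨p.1 * ε, p.2 * ε⟩ : ℂ)).subset ?_
  rintro μ ⟨⟨m, n, h1, h2⟩, h3⟩
  have : ‖μ‖ ≤ ρ + ‖w‖ := by
    have := norm_sub_le (w + μ) w
    rw [add_sub_cancel_left] at this
    linarith
  exact ⟨(m, n), ⟨h m (h1 ▸ (abs_re_le_norm μ).trans this),
    h n (h2 ▸ (abs_im_le_norm μ).trans this)⟩, Complex.ext h1.symm h2.symm⟩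

lemma folner {T : Type} [AddCommGroup T] [DecidableEq T] (T0 : Finset T) :
    ∃ Θ : Finset T, Θ.Nonempty ∧ (T0 + Θ).card ≤ 2 * Θ.card := by
  have hC : ((⊥ : AddSubgroup T) : Set T).Finite := by simp
  set b : ℕ → Finset T := fun M => (Bs.finite (τ := fun t : T0 => t.1) hC M).toFinset with hb
  have m : ∀ M x, x ∈ b M ↔ x ∈ Bs (fun t : T0 => t.1) ⊥ M := fun M x => Set.Finite.mem_toFinset _
  have ne : ∀ M, (b M).Nonempty := fun M => ⟨0, (m _ _).2 (Bs.of_mem M (zero_mem _))⟩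
  by_contra hc
  push Not at hc
  have g : ∀ M, 2 * (b M).card ≤ (b (M + 1)).card := by
    intro M
    refine (hc _ (ne M)).le.trans (card_le_card fun x hx => ?_)
    obtain ⟨t, ht, y, hy, rfl⟩ := Finset.mem_add.1 hx
    rw [m, add_comm t]
    refine Bs.add ((m _ _).1 hy) ⟨Pi.single ⟨t, ht⟩ 1, fun i => ?_, 0, zero_mem _, ?_⟩
    · rw [Pi.single_apply]
      split_ifs <;> simp
    · simp [Pi.single_apply]
  have g2 : ∀ M k, 2 ^ k * (b M).card ≤ (b (M + k)).card := by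
    intro M k
    induction k with
    | zero => simp
    | succ k ih =>
      have := g (M + k)
      rw [pow_succ', mul_assoc, ← add_assoc]
      omega
  have d := Bs.double (τ := fun t : T0 => t.1) hC (Fintype.card T0 + 1)
  have := (g2 _ _).trans d
  have p := (ne (Fintype.card T0 + 1)).card_pos
  rw [pow_succ'] at this
  have q : 0 < 2 ^ Fintype.card T0 := by positivity
  change _ ≤ _ * (b _).card at this
  nlinarith [Nat.mul_pos q p]

lemma folner_rot [DecidableEq (ℂ ≃ₗᵢ[ℝ] ℂ)] (K : Finset (ℂ ≃ₗᵢ[ℝ] ℂ)) :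
    ∃ Φ : Finset (ℂ ≃ₗᵢ[ℝ] ℂ), Φ.Nonempty ∧ (K * Φ).card ≤ 4 * Φ.card := by
  classical
  have h : ∀ f : ℂ ≃ₗᵢ[ℝ] ℂ, ∃ a : Circle, ∃ c ∈ ({1, conjLIE⁻¹} : Finset (ℂ ≃ₗᵢ[ℝ] ℂ)),
      f = c * rotation a := by
    intro f
    obtain ⟨a, h | h⟩ := linear_isometry_complex f⁻¹
    · exact ⟨a⁻¹, 1, by simp, by rw [map_inv, ← h]; simp⟩
    · refine ⟨a⁻¹, conjLIE⁻¹, by simp, ?_⟩
      rw [map_inv, ← mul_inv_rev, ← inv_inv f, h]
      rfl
  choose a c hc e using h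
  obtain ⟨Θ, t1, t2⟩ := folner (K.image fun f => Additive.ofMul (a f))
  have inj : Function.Injective fun x : Additive Circle => rotation x.toMul :=
    rotation_injective.comp Additive.toMul.injective
  refine ⟨Θ.image fun x => rotation x.toMul, t1.image _, ?_⟩
  rw [card_image_of_injective _ inj]
  have sub : K * Θ.image (fun x => rotation x.toMul) ⊆ ({1, conjLIE⁻¹} : Finset (ℂ ≃ₗᵢ[ℝ] ℂ)) *
      ((K.image fun f => Additive.ofMul (a f)) + Θ).image fun x => rotation x.toMul := by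
    intro w hw
    obtain ⟨f, hf, _, hy', rfl⟩ := Finset.mem_mul.1 hw
    obtain ⟨y, hy, rfl⟩ := mem_image.1 hy'
    refine Finset.mem_mul.2 ⟨c f, hc f, _, mem_image_of_mem _
      (add_mem_add (mem_image_of_mem _ hf) hy), ?_⟩
    rw [toMul_add, map_mul, toMul_ofMul, ← mul_assoc, ← e]
  have := (card_le_card sub).trans card_mul_le
  rw [card_image_of_injective _ inj] at this
  have := card_le_two (a := (1 : ℂ ≃ₗᵢ[ℝ] ℂ)) (b := conjLIE⁻¹)
  nlinarith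

end Pool.Agent.H.MP_95d7dd_gt
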