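import Pool.Agent.H.MP_95d7dd_gt.Aff

set_option autoImplicit false

namespace Pool.Agent.H.MP_95d7dd_gt

open Filter Topology Finset Pointwise Complex Pool.Agent.H.MP_bf94fe_gt

noncomputable def key (ε : ℝ) (g : Af) : (ℂ ≃ₗᵢ[ℝ] ℂ) × (ℂ ⧸ Lat ε) :=
  (g.l, QuotientAddGroup.mk (g.l⁻¹ g.t))

variable {ε : ℝ}

lemma key_eq (hε : 0 < ε) {g g' : Af} (h : key ε g = key ε g') (hd : ‖g.t - g'.t‖ < ε) :
    g = g' := by
  obtain ⟨h1, h2⟩ := Prod.mk.inj h
  rw [← h1, QuotientAddGroup.eq_iff_sub_mem, ← map_sub] at h2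
  have := Lat.small hε h2 (by rwa [LinearIsometryEquiv.norm_map])
  rw [map_eq_zero_iff _ (LinearIsometryEquiv.injective _), sub_eq_zero] at this
  exact Af.ext h1 this

lemma ball_diam {p0 a b : ℂ} (ha : a ∈ Metric.ball p0 (ε / 2)) (hb : b ∈ Metric.ball p0 (ε / 2)) :
    ‖a - b‖ < ε := by
  rw [mem_ball_iff_norm] at ha hb
  have := norm_sub_le (a - p0) (b - p0)
  rw [sub_sub_sub_cancel_right] at this
  linarith

open Classical in
lemma cnt1 (hε : 0 < ε) (p0 x : ℂ) (W : Finset Af) :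
    (W.filter fun g => g • x ∈ Metric.ball p0 (ε / 2)).card ≤ (W.image (key ε)).card := by
  refine card_le_card_of_injOn (key ε) (fun g hg => mem_coe.2 (mem_image_of_mem _
    (mem_filter.1 (mem_coe.1 hg)).1)) fun g hg g' hg' e => key_eq hε e ?_
  have := ball_diam (mem_filter.1 (mem_coe.1 hg)).2 (mem_filter.1 (mem_coe.1 hg')).2
  rwa [Af.smul_def, Af.smul_def, ← (Prod.mk.inj e).1, add_sub_add_left_eq_sub] at this

open Classical in
lemma cnt2 (hε : 0 < ε) (p0 x : ℂ) (W : Finset Af) :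
    (W.filter fun g => g⁻¹ • x ∈ Metric.ball p0 (ε / 2)).card ≤ (W.image (key ε)).card := by
  refine card_le_card_of_injOn (key ε) (fun g hg => mem_coe.2 (mem_image_of_mem _
    (mem_filter.1 (mem_coe.1 hg)).1)) fun g hg g' hg' e => key_eq hε e ?_
  have := ball_diam (mem_filter.1 (mem_coe.1 hg')).2 (mem_filter.1 (mem_coe.1 hg)).2
  rwa [Af.smul_def, Af.smul_def, Af.inv_l, Af.inv_l, Af.inv_t, Af.inv_t, ← (Prod.mk.inj e).1,
    add_sub_add_left_eq_sub, neg_sub_neg, ← map_sub, LinearIsometryEquiv.norm_map] at this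

lemma key_mk (k : (ℂ ≃ₗᵢ[ℝ] ℂ) × (ℂ ⧸ Lat ε)) {μ : ℂ} (hμ : μ ∈ Lat ε) :
    key ε ⟨k.1, k.1 (k.2.out + μ)⟩ = k := by
  refine Prod.ext rfl ?_
  show QuotientAddGroup.mk (k.1⁻¹ (k.1 (k.2.out + μ))) = k.2
  rw [lie_inv, QuotientAddGroup.mk_add_of_mem _ hμ, QuotientAddGroup.out_eq']

lemma key_fin (hε : 0 < ε) (Q : Finset ((ℂ ≃ₗᵢ[ℝ] ℂ) × (ℂ ⧸ Lat ε))) (ρ : ℝ) :
    {g : Af | key ε g ∈ Q ∧ ‖g.t‖ ≤ ρ}.Finite := by
  refine (Q.finite_toSet.biUnion fun k _ => (Lat.finite hε k.2.out ρ).image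
    fun μ => (⟨k.1, k.1 (k.2.out + μ)⟩ : Af)).subset ?_
  rintro g ⟨g1, g2⟩
  refine Set.mem_biUnion g1 ⟨-(key ε g).2.out + g.l⁻¹ g.t, ⟨?_, ?_⟩, ?_⟩
  · rw [← QuotientAddGroup.eq, QuotientAddGroup.out_eq']
    rfl
  · rwa [add_neg_cancel_left, LinearIsometryEquiv.norm_map]
  · refine Af.ext rfl ?_
    dsimp only
    rw [add_neg_cancel_left]
    exact lie_inv' _ _

lemma compare (hε : 0 < ε) {A : Set ℂ} {a0 p0 : ℂ} (hA : Metric.ball a0 (12 * ε) ⊆ A)
    {z r u u' : ℂ → ℕ} (hz : Lc z) (hr : Lc r)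
    (h1 : ∀ᶠ x in residual ℂ, z x ≤ ind (x ∈ Metric.ball p0 (ε / 2)))
    (h2 : ∀ᶠ x in residual ℂ, ind (x ∈ A) ≤ r x + u x) (h3 : Eqd Af u u')
    (h4 : ∀ᶠ x in residual ℂ, u' x ≤ ind (x ∈ Metric.ball p0 (ε / 2))) :
    ∃ w : ℂ → ℕ, Lc w ∧ Eqd Af z w ∧ ∀ᶠ x in residual ℂ, w x ≤ r x := by
  classical
  obtain ⟨n, γ, π, -, p2, p3⟩ := h3
  obtain ⟨Φ, f1, f2⟩ := folner_rot (univ.image fun i => (γ i).l)
  set T0 : Finset (ℂ ⧸ Lat ε) := (Φ ×ˢ univ).image
    fun p : (ℂ ≃ₗᵢ[ℝ] ℂ) × Fin n => QuotientAddGroup.mk (p.1⁻¹ ((γ p.2).l⁻¹ (γ p.2).t)) with hT0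
  obtain ⟨Θ, t1, t2⟩ := folner T0
  set S := (key_fin hε (Φ ×ˢ Θ) (‖a0‖ + ‖p0‖ + 12 * ε)).toFinset with hS
  have mS : ∀ g, g ∈ S ↔ key ε g ∈ Φ ×ˢ Θ ∧ ‖g.t‖ ≤ ‖a0‖ + ‖p0‖ + 12 * ε := fun g =>
    Set.Finite.mem_toFinset _
  have zP : ∀ {a : ℕ} {p : Prop}, a ≤ ind p → a ≠ 0 → p := fun h ha => by
    by_contra hn
    rw [ind_neg hn] at h
    omega
  refine Exists.imp (fun w hw => ?_) (baire_hall (G := Af) (S := S) (hz.comp (· ≠ 0))
    (hr.comp (· ≠ 0)) af_free (m := Φ.card * Θ.card) (Nat.mul_pos f1.card_pos t1.card_pos) ?_ ?_)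
  · obtain ⟨w1, w2, w3⟩ := hw
    refine ⟨w1, w2.congr ?_ (Eventually.of_forall fun _ => rfl),
      Eventually.of_forall fun x => (w3 x).trans ?_⟩
    · filter_upwards [h1] with x hx
      have := ind_le (x ∈ Metric.ball p0 (ε / 2))
      by_cases h : z x = 0
      · simp [ind, h]
      · rw [ind_pos h]
        omega
    · by_cases h : r x = 0
      · simp [ind, h]
      · exact (ind_le _).trans (Nat.one_le_iff_ne_zero.2 h)
  · filter_upwards [h1, (eventually_all_finset S).2 fun s _ => res_smul s (h2.and p2),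
      (eventually_all_finset (univ.image γ * S)).2 fun s _ => res_smul s (h4.and p3)]
      with x x1 x2 x3 x4
    have xP := mem_ball_iff_norm.1 (zP x1 x4)
    have cA : Φ.card * Θ.card * 10 ≤ (S.filter fun s => s • x ∈ A).card := by
      choose μ m1 m2 using fun k : (ℂ ≃ₗᵢ[ℝ] ℂ) × (ℂ ⧸ Lat ε) =>
        Lat.near hε (x + k.2.out - k.1⁻¹ a0)
      have m3 : ∀ k (j : ℕ), μ k + (j * ε : ℝ) ∈ Lat ε := fun k j =>
        add_mem (m1 k) ⟨j, 0, by simp, by simp⟩
      rw [← card_product, ← card_range 10, ← card_product]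
      refine card_le_card_of_injOn
        (fun q => (⟨q.1.1, q.1.1 (q.1.2.out + (μ q.1 + (q.2 * ε : ℝ)))⟩ : Af))
        (fun q hq => ?_) fun q _ q' _ e => ?_
      · obtain ⟨q1, q2⟩ := mem_product.1 (mem_coe.1 hq)
        have q3 : (q.2 : ℝ) ≤ 9 := by exact_mod_cast Nat.le_of_lt_succ (mem_range.1 q2)
        have b1 : ‖x + (q.1.2.out + (μ q.1 + (q.2 * ε : ℝ))) - q.1.1⁻¹ a0‖ ≤ 11 * ε := by
          have : x + (q.1.2.out + (μ q.1 + (q.2 * ε : ℝ))) - q.1.1⁻¹ a0 =
              (x + q.1.2.out - q.1.1⁻¹ a0 + μ q.1) + (q.2 * ε : ℝ) := by ring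
          rw [this]
          refine (norm_add_le _ _).trans ?_
          rw [norm_real, Real.norm_of_nonneg (by positivity)]
          nlinarith [m2 q.1]
        refine mem_coe.2 (mem_filter.2 ⟨(mS _).2 ⟨by rw [key_mk _ (m3 _ _)]; exact q1, ?_⟩,
          hA (mem_ball_iff_norm.2 ?_)⟩)
        · dsimp only
          rw [LinearIsometryEquiv.norm_map]
          have e : q.1.2.out + (μ q.1 + (q.2 * ε : ℝ)) =
              (x + (q.1.2.out + (μ q.1 + (q.2 * ε : ℝ))) - q.1.1⁻¹ a0) + q.1.1⁻¹ a0 -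
                (x - p0) - p0 := by ring
          rw [e]
          refine (norm_sub_le _ _).trans ?_
          refine (add_le_add_left ((norm_sub_le _ _).trans
            (add_le_add_left (norm_add_le _ _) _)) _).trans ?_
          rw [LinearIsometryEquiv.norm_map]
          linarith
        · rw [Af.smul_def]
          dsimp only
          rw [← map_add, ← lie_inv' q.1.1 a0, ← map_sub, LinearIsometryEquiv.norm_map]
          linarith
      · have e1 := congrArg (key ε) e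
        rw [key_mk _ (m3 _ _), key_mk _ (m3 _ _)] at e1
        have e2 := congrArg Af.t e
        dsimp only at e2
        rw [← e1] at e2
        have e3 := add_left_cancel (add_left_cancel (q.1.1.injective e2))
        rw [ofReal_inj, mul_left_inj' hε.ne', Nat.cast_inj] at e3
        exact Prod.ext e1 e3
    have cR : (S.filter fun s => s • x ∈ A).card ≤ (S.filter fun s => r (s • x) ≠ 0).card +
        ∑ s ∈ S, ∑ i, π i (s • x) := by
      rw [card_filter, card_filter, ← sum_add_distrib]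
      refine sum_le_sum fun s hs => ?_
      obtain ⟨a, b⟩ := x2 s hs
      rw [b]
      unfold ind at a
      split_ifs at a ⊢ <;> omega
    have cU := plan_count γ (fun i (g : Af) => π i (g • x)) S (univ.image γ * S)
      fun y hy i => mul_mem_mul (mem_image_of_mem _ (mem_univ i)) hy
    have cV : ∑ y ∈ univ.image γ * S, ∑ i, π i (((γ i)⁻¹ • y) • x) ≤
        ((univ.image γ * S).filter fun g => g • x ∈ Metric.ball p0 (ε / 2)).card := by
      rw [card_filter]
      refine sum_le_sum fun s hs => ?_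
      obtain ⟨a, b⟩ := x3 s hs
      simp only [smul_eq_mul, mul_smul]
      rw [b]
      unfold ind at a
      convert a
    have cW : ((univ.image γ * S).image (key ε)).card ≤
        (((univ.image fun i => (γ i).l) * Φ) ×ˢ (T0 + Θ)).card := by
      refine card_le_card fun k hk => ?_
      obtain ⟨g, hg, rfl⟩ := mem_image.1 hk
      obtain ⟨a, ha, s, hs, rfl⟩ := Finset.mem_mul.1 hg
      obtain ⟨i, -, rfl⟩ := mem_image.1 ha
      obtain ⟨s1, s2⟩ := mem_product.1 ((mS s).1 hs).1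
      refine mem_product.2 ⟨mul_mem_mul (mem_image_of_mem _ (mem_univ i)) s1,
        Finset.mem_add.2 ⟨_, mem_image_of_mem _ (mem_product.2 (show (s.l, i).1 ∈ Φ ∧
          (s.l, i).2 ∈ univ from ⟨s1, mem_univ i⟩)), _, s2, ?_⟩⟩
      simp only [key, Af.mul_l, Af.mul_t, mul_inv_rev, lie_mul, map_add, lie_inv]
      rfl
    have c1 := cnt1 hε p0 x (univ.image γ * S)
    rw [card_product] at cW
    have := Nat.mul_le_mul f2 t2
    nlinarith
  · filter_upwards [(eventually_all_finset S).2 fun s _ => res_smul s⁻¹ h1] with y hy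
    refine (card_le_card fun s hs => ?_).trans ((cnt2 hε p0 y S).trans ?_)
    · simp only [mem_filter] at hs ⊢
      exact ⟨hs.1, zP (hy s hs.1) hs.2⟩
    · rw [← card_product]
      refine card_le_card fun k hk => ?_
      obtain ⟨g, hg, rfl⟩ := mem_image.1 hk
      exact ((mS g).1 hg).1

lemma cancel_list (hε : 0 < ε) {A : Set ℂ} {a0 : ℂ} (hA : Metric.ball a0 (12 * ε) ⊆ A)
    (l : List ℂ) : ∀ a b c : ℂ → ℕ, Lc a → Lc c → (∀ x, ind (x ∈ A) ≤ a x) →
      (∀ x, c x ≤ (l.map fun p => ind (x ∈ Metric.ball p (ε / 2))).sum) →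
      Eqd Af (fun x => a x + c x) (fun x => b x + c x) → Eqd Af a b := by
  induction l with
  | nil =>
    intro a b c _ _ _ hc h
    refine h.congr (Eventually.of_forall fun x => ?_) (Eventually.of_forall fun x => ?_) <;>
      simpa using hc x
  | cons p l ih =>
    intro a b c ha hc h1 h2 h3
    have l1 : Lc fun x => min (c x) (ind (x ∈ Metric.ball p (ε / 2))) :=
      hc.comp₂ (Lc.of_isOpen Metric.isOpen_ball) fun a q => min a (ind q)
    have l2 : Lc fun x => c x - min (c x) (ind (x ∈ Metric.ball p (ε / 2))) :=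
      hc.comp₂ l1 (· - ·)
    refine ih a b _ ha l2 h1 (fun x => by
      have := h2 x
      rw [List.map_cons, List.sum_cons] at this
      omega) (Eqd.cancel (ha.comp₂ l2 (· + ·)) l1
        (h3.congr (Eventually.of_forall fun x => by omega)
          (Eventually.of_forall fun x => by omega)) fun z r u u' hz hr _ e1 e2 e3 e4 =>
        compare (p0 := p) hε hA hz hr ?_ ?_ e3 ?_)
    · filter_upwards [e1] with x hx using hx.trans (min_le_right _ _)
    · filter_upwards [e2] with x hx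
      have := h1 x
      omega
    · filter_upwards [e4] with x hx using hx.trans (min_le_right _ _)

theorem cancel_all {A D : Set ℂ} (hA : IsOpen A) (hne : A.Nonempty) (hD : Bornology.IsBounded D)
    (N : ℕ) : ∀ a b c : ℂ → ℕ, Lc a → Lc c → (∀ x, ind (x ∈ A) ≤ a x) → (∀ x, c x ≤ N) →
      (∀ x, c x ≠ 0 → x ∈ D) →
      Eqd Af (fun x => a x + c x) (fun x => b x + c x) → Eqd Af a b := by
  obtain ⟨a0, ha0⟩ := hne
  obtain ⟨r, hr, hb⟩ := Metric.isOpen_iff.1 hA a0 ha0
  have hε : 0 < r / 12 := by linarith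
  have hA' : Metric.ball a0 (12 * (r / 12)) ⊆ A := by rwa [show 12 * (r / 12) = r by ring]
  obtain ⟨t, ht⟩ := hD.isCompact_closure.elim_finite_subcover
    (fun p : ℂ => Metric.ball p (r / 12 / 2)) (fun _ => Metric.isOpen_ball)
    fun x _ => Set.mem_iUnion.2 ⟨x, Metric.mem_ball_self (by linarith)⟩
  have cov : ∀ x ∈ D, 1 ≤ (t.toList.map fun p => ind (x ∈ Metric.ball p (r / 12 / 2))).sum := by
    intro x hx
    obtain ⟨y, hy, hxy⟩ := Set.mem_iUnion₂.1 (ht (subset_closure hx))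
    exact List.single_le_sum (fun _ _ => Nat.zero_le _) _
      (List.mem_map.2 ⟨y, Finset.mem_toList.2 hy, ind_pos hxy⟩)
  induction N with
  | zero =>
    intro a b c _ _ _ hc _ h
    refine h.congr (Eventually.of_forall fun x => ?_) (Eventually.of_forall fun x => ?_) <;>
      simpa using hc x
  | succ N ih =>
    intro a b c ha hc h1 h2 h4 h3
    have l1 : Lc fun x => min (c x) 1 := hc.comp fun a => min a 1
    have l2 : Lc fun x => c x - min (c x) 1 := hc.comp₂ l1 (· - ·)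
    refine ih a b _ ha l2 h1 (fun x => by have := h2 x; omega) (fun x hx => h4 x (by omega))
      (cancel_list hε hA' t.toList _ _ _ (ha.comp₂ l2 (· + ·)) l1
        (fun x => (h1 x).trans (Nat.le_add_right _ _)) (fun x => ?_)
        (h3.congr (Eventually.of_forall fun x => by omega)
          (Eventually.of_forall fun x => by omega)))
    by_cases h : c x = 0
    · simp [h]
    · exact (min_le_right _ _).trans (cov x (h4 x h))

end Pool.Agent.H.MP_95d7dd_gt
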