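import Pool.Agent.H.MP_bf94fe_gt.Join

set_option autoImplicit false

namespace Pool.Agent.H.MP_95d7dd_gt

open Finset Relation Pool.Agent.H.MP_bf94fe_gt

variable {G ι : Type} [Group G] {σ : ι → G}

lemma grow' {E W : Set G} (h1 : Sat σ W) (h2 : OE σ (E ∪ W)) {F : Set G} (hF : F.Finite) :
    ∃ L : Set G, L.Finite ∧ F ⊆ L ∧ (∀ u ∈ L, ∀ v ∈ W, Adj σ u v → v ∈ L) ∧
      ∀ u v, u ∉ E ∪ W ∪ L → v ∉ E ∪ W ∪ L → Conn σ (E ∪ W ∪ L)ᶜ u v := by
  obtain ⟨F1, hF1, hc⟩ := h2 F hF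
  set q : G → Prop := fun u => ∃ z, z ∉ E ∪ W ∪ F1 ∧ Conn σ (E ∪ W ∪ F)ᶜ u z with hq
  have hNa : {u | u ∉ E ∪ W ∧ ¬ q u}.Finite := by
    refine hF1.subset fun u hu => ?_
    by_contra hn
    exact hu.2 ⟨u, fun h => h.elim hu.1 hn, ReflTransGen.refl⟩
  obtain ⟨L, hL, l1, l2, l3⟩ := h1 _ (hF.union hNa)
  refine ⟨L, hL, Set.subset_union_left.trans l1, l3, fun u v hu hv => ?_⟩
  have hqu : ∀ u, u ∉ E ∪ W ∪ L → q u := by
    intro u hu
    by_contra hn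
    exact hu (Or.inr (l1 (Or.inr ⟨fun h => hu (Or.inl h), hn⟩)))
  have key : ∀ a b, q a → Conn σ (E ∪ W ∪ F)ᶜ a b → q b ∧ Conn σ (E ∪ W ∪ L)ᶜ a b := by
    intro a b ha h
    induction h with
    | refl => exact ⟨ha, ReflTransGen.refl⟩
    | @tail b c _ h2 ih =>
      obtain ⟨z, hz, hz'⟩ := ih.1
      have hc' : q c := ⟨z, hz, (Conn.step h2.2.1 h2.1 h2.2.2.symm).trans hz'⟩
      have mem : ∀ t, t ∈ (E ∪ W ∪ F)ᶜ → q t → t ∈ (E ∪ W ∪ L)ᶜ := by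
        rintro t ht hqt (h | h)
        · exact ht (Or.inl h)
        · rcases l2 h with (h | h) | h
          · exact ht (Or.inr h)
          · exact h.2 hqt
          · exact ht (Or.inl (Or.inr h))
      exact ⟨hc', ih.2.trans (Conn.step (mem _ h2.1 ih.1) (mem _ h2.2.1 hc') h2.2.2)⟩
  obtain ⟨z, hz, hz'⟩ := hqu u hu
  obtain ⟨w, hw, hw'⟩ := hqu v hv
  exact (key u v (hqu u hu) ((hz'.trans (hc z w hz hw)).trans hw'.symm)).2

variable (σ) in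
/-- A finite patch `K` with a neighbourhood `R` allowing detours outside `E0`. -/
structure Patch' (E0 W0 K R : Set G) : Prop where
  fin : R.Finite
  sub : K ⊆ R
  nb : ∀ u ∈ K, ∀ v, Adj σ u v → v ∈ R
  sat : ∀ u ∈ K, ∀ v ∈ W0, Adj σ u v → v ∈ K
  con : ∀ u v, u ∉ K → v ∉ K → u ∉ E0 → v ∉ E0 → (∃ a ∈ K, Adj σ a u) → (∃ a ∈ K, Adj σ a v) →
    Conn σ (R \ (E0 ∪ W0 ∪ K)) u v

lemma exists_patch' [Finite ι] {E W : Set G} (h1 : Sat σ W) (h2 : OE σ (E ∪ W)) {F : Set G}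
    (hF : F.Finite) : ∃ K R : Set G, F ⊆ K ∧ Patch' σ E W K R := by
  obtain ⟨K, hK, k1, k2, k3⟩ := grow' h1 h2 hF
  have hN := adj_finite (σ := σ) hK
  have : ∀ u v, ∃ Q : Set G, Q.Finite ∧ (u ∉ E ∪ W ∪ K → v ∉ E ∪ W ∪ K →
      Q ⊆ (E ∪ W ∪ K)ᶜ ∧ Conn σ Q u v) := by
    intro u v
    by_cases h : u ∉ E ∪ W ∪ K ∧ v ∉ E ∪ W ∪ K
    · obtain ⟨Q, q1, q2, q3⟩ := (k3 u v h.1 h.2).finite
      exact ⟨Q, q1, fun _ _ => ⟨q2, q3⟩⟩
    · exact ⟨∅, Set.finite_empty, fun a b => absurd ⟨a, b⟩ h⟩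
  choose Q hQ hQ' using this
  refine ⟨K, K ∪ {v | ∃ u ∈ K, Adj σ u v} ∪ ⋃ u ∈ {v | ∃ u ∈ K, Adj σ u v},
    ⋃ v ∈ {v | ∃ u ∈ K, Adj σ u v}, Q u v, k1,
    (hK.union hN).union (hN.biUnion fun u _ => hN.biUnion fun v _ => hQ u v),
    fun x hx => Or.inl (Or.inl hx), fun u hu v h => Or.inl (Or.inr ⟨u, hu, h⟩), k2, ?_⟩
  intro u v hu hv eu ev hu' hv'
  have out : ∀ u, u ∉ K → u ∉ E → (∃ a ∈ K, Adj σ a u) → u ∉ E ∪ W ∪ K := by
    rintro u hu eu ⟨a, ha, h⟩ ((h' | h') | h')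
    · exact eu h'
    · exact hu (k2 a ha u h' h)
    · exact hu h'
  obtain ⟨q1, q2⟩ := hQ' u v (out u hu eu hu') (out v hv ev hv')
  exact q2.mono fun x hx => ⟨Or.inr (Set.mem_biUnion hu' (Set.mem_biUnion hv' hx)), q1 hx⟩

section
variable {E E0 W W0 K R Y : Set G} (hp : Patch' σ E0 W0 K R)
  (dis : ∀ h ∈ Y, ∀ h' ∈ Y, ∀ g ∈ R, ∀ g' ∈ R, g * h = g' * h' → h = h')
  (pat : ∀ h ∈ Y, ∀ g ∈ R, g * h ∈ W ↔ g ∈ W0)
  (patE : ∀ h ∈ Y, ∀ g ∈ R, g * h ∈ E ↔ g ∈ E0)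
include hp dis pat patE

omit dis pat patE in
lemma Patch'.near_finite {F : Set G} (hF : F.Finite) :
    {x | ∃ h, (∃ g ∈ R, g * h ∈ F) ∧ x * h⁻¹ ∈ R}.Finite := by
  refine (hp.fin.biUnion fun g _ => hF.biUnion fun f _ =>
    hp.fin.image fun r => r * (g⁻¹ * f)).subset ?_
  rintro x ⟨h, ⟨g, hg, hf⟩, hx⟩
  exact Set.mem_biUnion hg (Set.mem_biUnion hf ⟨_, hx, by simp⟩)

omit patE in
lemma Patch'.sat' [Finite ι] (hW : Sat σ W) : Sat σ (W ∪ {g | ∃ h ∈ Y, g * h⁻¹ ∈ K}) := by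
  intro F hF
  obtain ⟨L, l0, l1, l2, l3⟩ := hW F hF
  refine ⟨L ∪ {x | ∃ h ∈ Y, (∃ g ∈ R, g * h ∈ L) ∧ x * h⁻¹ ∈ K},
    l0.union ((hp.near_finite l0).subset fun x ⟨h, _, a, b⟩ => ⟨h, a, hp.sub b⟩),
    l1.trans Set.subset_union_left, ?_, ?_⟩
  · rintro x (hx | ⟨h, hh, -, hx⟩)
    · exact (l2 hx).imp id Or.inl
    · exact Or.inr (Or.inr ⟨h, hh, hx⟩)
  · rintro u (hu | ⟨h, hh, a, hu⟩) v (hv | ⟨h', hh', hv⟩) hadj
    · exact Or.inl (l3 u hu v hv hadj)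
    · exact Or.inr ⟨h', hh', ⟨u * h'⁻¹, hp.nb _ hv _ (hadj.symm.mul _), by simpa using hu⟩, hv⟩
    · have hr := hp.nb _ hu _ (hadj.mul h⁻¹)
      exact Or.inr ⟨h, hh, a, hp.sat _ hu _ ((pat h hh _ hr).1 (by simpa using hv))
        (hadj.mul h⁻¹)⟩
    · have hr := hp.nb _ hu _ (hadj.mul h⁻¹)
      have := dis h hh h' hh' _ hr _ (hp.sub hv) (by simp)
      subst this
      exact Or.inr ⟨h, hh, a, hv⟩

lemma Patch'.oe' (hW : OE σ (E ∪ W)) : OE σ (E ∪ (W ∪ {g | ∃ h ∈ Y, g * h⁻¹ ∈ K})) := by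
  intro F hF
  obtain ⟨L, l0, l1⟩ := hW _ (hF.union (hp.near_finite hF))
  refine ⟨L, l0, fun u v hu hv => ?_⟩
  set W' := E ∪ (W ∪ {g | ∃ h ∈ Y, g * h⁻¹ ∈ K}) with hW'
  have key : ∀ b, Conn σ (E ∪ W ∪ (F ∪ {x | ∃ h, (∃ g ∈ R, g * h ∈ F) ∧ x * h⁻¹ ∈ R}))ᶜ u b →
      ((¬ ∃ h ∈ Y, b * h⁻¹ ∈ K) ∧ Conn σ (W' ∪ F)ᶜ u b) ∨
        ∃ h ∈ Y, b * h⁻¹ ∈ K ∧ ∃ c, c ∉ E ∧ c * h⁻¹ ∉ K ∧ (∃ a ∈ K, Adj σ a (c * h⁻¹)) ∧
          Conn σ (W' ∪ F)ᶜ u c := by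
    intro b hb
    induction hb with
    | refl => exact Or.inl ⟨fun h => hu (Or.inl (Or.inr (Or.inr h))), ReflTransGen.refl⟩
    | @tail b c _ h2 ih =>
      obtain ⟨hb, hc, hadj⟩ := h2
      rcases ih with ⟨i1, i2⟩ | ⟨h, hh, i1, d, d0, d1, d2, d3⟩
      · by_cases hcK : ∃ h ∈ Y, c * h⁻¹ ∈ K
        · obtain ⟨h, hh, hcK⟩ := hcK
          exact Or.inr ⟨h, hh, hcK, b, fun a => hb (Or.inl (Or.inl a)),
            fun h' => i1 ⟨h, hh, h'⟩, ⟨_, hcK, hadj.symm.mul _⟩, i2⟩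
        · refine Or.inl ⟨hcK, i2.trans (Conn.step ?_ ?_ hadj)⟩
          · rintro ((a | a | a) | a)
            exacts [hb (Or.inl (Or.inl a)), hb (Or.inl (Or.inr a)), i1 a, hb (Or.inr (Or.inl a))]
          · rintro ((a | a | a) | a)
            exacts [hc (Or.inl (Or.inl a)), hc (Or.inl (Or.inr a)), hcK a, hc (Or.inr (Or.inl a))]
      · by_cases hcK : c * h⁻¹ ∈ K
        · exact Or.inr ⟨h, hh, hcK, d, d0, d1, d2, d3⟩
        · have hr := hp.nb _ i1 _ (hadj.mul h⁻¹)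
          have hd : d * h⁻¹ ∈ R := by
            obtain ⟨a, ha, ha'⟩ := d2
            exact hp.nb _ ha _ ha'
          left
          constructor
          · rintro ⟨h', hh', a⟩
            have := dis h hh h' hh' _ hr _ (hp.sub a) (by simp)
            subst this
            exact hcK a
          · have := (hp.con _ _ d1 hcK (fun a => d0 (by simpa using (patE h hh _ hd).2 a))
              (fun a => hc (Or.inl (Or.inl (by simpa using (patE h hh _ hr).2 a))))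
              d2 ⟨_, i1, hadj.mul h⁻¹⟩).mul (Q := (W' ∪ F)ᶜ) h (by
              rintro g ⟨g1, g2⟩ ((a | a | ⟨h', hh', a⟩) | a)
              · exact g2 (Or.inl (Or.inl ((patE h hh g g1).1 a)))
              · exact g2 (Or.inl (Or.inr ((pat h hh g g1).1 a)))
              · have := dis h hh h' hh' _ g1 _ (hp.sub a) (by simp)
                subst this
                exact g2 (Or.inr (by simpa using a))
              · exact hb (Or.inr (Or.inr ⟨h, ⟨g, g1, a⟩, hp.sub i1⟩)))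
            simp only [inv_mul_cancel_right] at this
            exact d3.trans this
  have mono : ∀ a, a ∈ E ∪ W ∪ L → a ∈ W' ∪ L := fun a h =>
    h.imp (fun h => h.imp id Or.inl) id
  rcases key v (l1 u v (fun a => hu (mono _ a)) (fun a => hv (mono _ a))) with
    a | ⟨h, hh, a, -⟩
  · exact a.2
  · exact absurd (Or.inl (Or.inr (Or.inr ⟨h, hh, a⟩))) hv

end

/-- The local rounding step. -/
lemma local_round' [Fintype ι] (ψ : G → ι → ℤ) {E W L : Set G} (hL : L.Finite)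
    (sat : ∀ u ∈ L, ∀ v ∈ W, Adj σ u v → v ∈ L)
    (con : ∀ u v, u ∉ E ∪ W ∪ L → v ∉ E ∪ W ∪ L → Conn σ (E ∪ W ∪ L)ᶜ u v)
    (hE : ∀ g i, Odd (ψ g i) → g ∉ E ∧ σ i * g ∉ E)
    (ev : ∀ g ∈ L, Even (∑ i, ψ g i - ∑ i, ψ ((σ i)⁻¹ * g) i)) :
    ∃ (Z : Finset (G × ι)) (c : G × ι → ℤ), (∀ e ∈ Z, c e = 1 ∨ c e = -1) ∧
      (∀ f : G → ℤ, ∑ e ∈ Z, c e * (f e.1 - f (σ e.2 * e.1)) = 0) ∧
      (∀ e : G × ι, e.1 ∈ L ∨ σ e.2 * e.1 ∈ L → (e ∈ Z ↔ Odd (ψ e.1 e.2))) ∧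
      ∀ e ∈ Z, (e.1 ∉ E ∧ σ e.2 * e.1 ∉ E) ∧
        ((e.1 ∈ L ∨ σ e.2 * e.1 ∈ L) ∨ (e.1 ∉ W ∧ σ e.2 * e.1 ∉ W)) := by
  classical
  have two : ∀ a : ZMod 2, a + a = 0 := by decide
  set Lf := hL.toFinset with hLf
  set Et : Finset (G × ι) := Lf ×ˢ univ ∪ (Lf ×ˢ univ).image fun e => ((σ e.2)⁻¹ * e.1, e.2)
    with hEt
  have mEt : ∀ e : G × ι, e ∈ Et ↔ e.1 ∈ L ∨ σ e.2 * e.1 ∈ L := by
    rintro ⟨g, i⟩
    simp only [hEt, hLf, mem_union, mem_product, Set.Finite.mem_toFinset, mem_univ, and_true,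
      mem_image, Prod.mk.injEq, Prod.exists]
    refine or_congr Iff.rfl ⟨?_, fun h => ⟨_, i, h, by simp, rfl⟩⟩
    rintro ⟨a, j, h, rfl, rfl⟩
    simpa using h
  set Z0 := Et.filter fun e => Odd (ψ e.1 e.2) with hZ0
  have hbase : ∃ u0, ∀ t, ∃ J : G × ι →₀ ZMod 2,
      (∀ e, J e ≠ 0 → e.1 ∉ E ∪ W ∪ L ∧ σ e.2 * e.1 ∉ E ∪ W ∪ L) ∧
      (t ∈ L → J = 0) ∧ (t ∉ E ∪ W ∪ L → ∀ f, pr σ J f = f u0 + f t) := by
    by_cases h : ∃ u0, u0 ∉ E ∪ W ∪ L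
    · obtain ⟨u0, h0⟩ := h
      refine ⟨u0, fun t => ?_⟩
      by_cases ht : t ∈ E ∪ W ∪ L
      · exact ⟨0, by simp, fun _ => rfl, fun h => absurd ht h⟩
      · obtain ⟨J, j1, j2⟩ := (con u0 t h0 ht).chain
        exact ⟨J, j1, fun h => absurd (Or.inr h) ht, fun _ => j2⟩
    · exact ⟨1, fun t => ⟨0, by simp, fun _ => rfl, fun h' => absurd ⟨t, h'⟩ h⟩⟩
  obtain ⟨u0, hJ⟩ := hbase
  choose Jv j1 j2 j3 using hJ
  set J := ∑ e ∈ Z0, (Jv e.1 + Jv (σ e.2 * e.1)) with hJ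
  have hJs : ∀ e, J e ≠ 0 → e.1 ∉ E ∪ W ∪ L ∧ σ e.2 * e.1 ∉ E ∪ W ∪ L := by
    intro e he
    rw [hJ, Finsupp.finset_sum_apply] at he
    obtain ⟨x, -, hx⟩ := Finset.exists_ne_zero_of_sum_ne_zero he
    by_cases h : Jv x.1 e = 0
    · exact j1 _ e (by simpa [h] using hx)
    · exact j1 _ e h
  have hdis : Disjoint Z0 J.support := by
    rw [Finset.disjoint_left]
    intro e he he'
    have := hJs e (Finsupp.mem_support_iff.1 he')
    rcases (mEt e).1 (mem_filter.1 he).1 with h | h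
    exacts [this.1 (Or.inr h), this.2 (Or.inr h)]
  have hpar : ∀ f : G → ZMod 2, (∀ g, g ∉ L → f g = 0) →
      ∑ e ∈ Z0, (f e.1 + f (σ e.2 * e.1)) = 0 := by
    intro f hf
    have e1 : ∑ e ∈ Z0, (f e.1 + f (σ e.2 * e.1)) =
        ∑ e ∈ Et, (ψ e.1 e.2 : ZMod 2) * f e.1 + ∑ e ∈ Et, (ψ e.1 e.2 : ZMod 2) * f (σ e.2 * e.1) := by
      rw [hZ0, Finset.sum_filter, ← Finset.sum_add_distrib]
      refine Finset.sum_congr rfl fun e _ => ?_
      split_ifs with h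
      · rw [(ZMod.intCast_eq_one_iff_odd).2 h]
        ring
      · rw [(ZMod.intCast_eq_zero_iff_even).2 (Int.not_odd_iff_even.1 h)]
        ring
    have e2 : ∑ e ∈ Et, (ψ e.1 e.2 : ZMod 2) * f e.1 =
        ∑ g ∈ Lf, f g * ∑ i, (ψ g i : ZMod 2) := by
      rw [← Finset.sum_subset (s₁ := Lf ×ˢ univ) Finset.subset_union_left, Finset.sum_product]
      · refine Finset.sum_congr rfl fun g _ => ?_
        rw [Finset.mul_sum]
        exact Finset.sum_congr rfl fun i _ => mul_comm _ _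
      · intro e _ he
        rw [hf e.1 (by simpa [hLf] using he), mul_zero]
    have e3 : ∑ e ∈ Et, (ψ e.1 e.2 : ZMod 2) * f (σ e.2 * e.1) =
        ∑ g ∈ Lf, f g * ∑ i, (ψ ((σ i)⁻¹ * g) i : ZMod 2) := by
      rw [← Finset.sum_subset (s₁ := (Lf ×ˢ univ).image fun e => ((σ e.2)⁻¹ * e.1, e.2))
        Finset.subset_union_right, Finset.sum_image, Finset.sum_product]
      · refine Finset.sum_congr rfl fun g _ => ?_
        rw [Finset.mul_sum]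
        exact Finset.sum_congr rfl fun i _ => by simp [mul_comm]
      · rintro ⟨a, i⟩ - ⟨b, j⟩ - h
        obtain ⟨h1, rfl⟩ := Prod.mk.inj h
        simpa using h1
      · intro e _ he
        rw [hf _ fun h => he (mem_image.2 ⟨(σ e.2 * e.1, e.2), by simpa [hLf] using h, by simp⟩),
          mul_zero]
    rw [e1, e2, e3, ← Finset.sum_add_distrib]
    refine Finset.sum_eq_zero fun g hg => ?_
    have := (ZMod.intCast_eq_zero_iff_even).2 (ev g (by simpa [hLf] using hg))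
    push_cast at this
    linear_combination f g * this + f g * two (∑ i, (ψ ((σ i)⁻¹ * g) i : ZMod 2))
  obtain ⟨c, c1, c2⟩ := euler _ (Z0 ∪ J.support) (fun e => e.1) (fun e => σ e.2 * e.1) rfl
    fun f => by
      have e1 : ∑ e ∈ J.support, (f e.1 + f (σ e.2 * e.1)) = pr σ J f := by
        refine Finset.sum_congr rfl fun e he => ?_
        have : ∀ a : ZMod 2, a ≠ 0 → a = 1 := by decide
        rw [this _ (Finsupp.mem_support_iff.1 he)]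
        exact (one_mul _).symm
      rw [Finset.sum_union hdis, e1, hJ, pr_sum, ← Finset.sum_add_distrib,
        ← hpar (fun g => if g ∈ L then f g + f u0 else 0) fun g hg => if_neg hg]
      refine Finset.sum_congr rfl fun e he => ?_
      have hv : ∀ a b, a ∉ E → Adj σ a b → (a ∈ L ∨ b ∈ L) →
          f a + pr σ (Jv a) f = (if a ∈ L then f a + f u0 else 0) + f u0 := by
        intro a b hae hab h
        split_ifs with ha
        · rw [j2 a ha]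
          simp only [pr, Finsupp.sum_zero_index]
          linear_combination - two (f u0)
        · rw [j3 a (by
            rintro ((h' | h') | h')
            · exact hae h'
            · exact ha (sat b (h.resolve_left ha) a h' hab.symm)
            · exact ha h')]
          linear_combination two (f a)
      have hm := (mEt e).1 (mem_filter.1 he).1
      have a1 := hv e.1 (σ e.2 * e.1) (hE _ _ (mem_filter.1 he).2).1 ⟨e.2, Or.inl rfl⟩ hm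
      have a2 := hv (σ e.2 * e.1) e.1 (hE _ _ (mem_filter.1 he).2).2 ⟨e.2, Or.inr rfl⟩ hm.symm
      rw [pr_add]
      linear_combination a1 + a2 + two (f u0)
  refine ⟨Z0 ∪ J.support, c, c1, c2, fun e he => ⟨fun h => ?_, fun h =>
    mem_union_left _ (mem_filter.2 ⟨(mEt e).2 he, h⟩)⟩, fun e he => ?_⟩
  · rcases mem_union.1 h with h | h
    · exact (mem_filter.1 h).2
    · have := hJs e (Finsupp.mem_support_iff.1 h)
      rcases he with he | he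
      exacts [absurd (Or.inr he) this.1, absurd (Or.inr he) this.2]
  · rcases mem_union.1 he with h | h
    · exact ⟨hE _ _ (mem_filter.1 h).2, Or.inl ((mEt e).1 (mem_filter.1 h).1)⟩
    · have := hJs e (Finsupp.mem_support_iff.1 h)
      exact ⟨⟨fun a => this.1 (Or.inl (Or.inl a)), fun a => this.2 (Or.inl (Or.inl a))⟩,
        Or.inr ⟨fun a => this.1 (Or.inl (Or.inr a)), fun a => this.2 (Or.inl (Or.inr a))⟩⟩

end Pool.Agent.H.MP_95d7dd_gt
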