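import Pool.Agent.H.MP_bf94fe_gt.Cancel

set_option autoImplicit false

namespace Pool.Agent.H.MP_95d7dd_gt

open Filter Topology Finset Pointwise Pool.Agent.H.MP_bf94fe_gt

section comb

variable {G : Type} [Group G] [DecidableEq G]

open Classical in
noncomputable def Nb (S : Finset G) (R : Set G) (Y : Finset G) : Finset G :=
  (S * Y).filter (· ∈ R)

lemma mem_Nb {S Y : Finset G} {R : Set G} {w : G} :
    w ∈ Nb S R Y ↔ (∃ s ∈ S, ∃ y ∈ Y, s * y = w) ∧ w ∈ R := by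
  classical
  unfold Nb
  rw [mem_filter, Finset.mem_mul]

def Un (S Y : Finset G) : Prop :=
  ∀ Y1 ⊆ Y, Y1.Nonempty → Y1 ≠ Y → ∃ a ∈ Y1, ∃ b ∈ Y, b ∉ Y1 ∧ b * a⁻¹ ∈ S⁻¹ * S

structure HI (S : Finset G) (L R : Set G) (p n : ℕ) : Prop where
  h0 : ∀ Y : Finset G, ↑Y ⊆ L → Y.card ≤ (Nb S R Y).card
  h1 : ∀ Y : Finset G, ↑Y ⊆ L → Un S Y → n ≤ Y.card →
    (p + 1) * Y.card ≤ p * (Nb S R Y).card

lemma hall_of_un {S : Finset G} {L R : Set G}
    (h : ∀ Y : Finset G, ↑Y ⊆ L → Un S Y → Y.card ≤ (Nb S R Y).card) (Y : Finset G) :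
    ↑Y ⊆ L → Y.card ≤ (Nb S R Y).card := by
  induction Y using Finset.strongInduction with
  | H Y ih =>
    intro hY
    by_cases hu : Un S Y
    · exact h Y hY hu
    unfold Un at hu
    push Not at hu
    obtain ⟨Y1, s1, n1, n2, hd⟩ := hu
    have a1 := ih Y1 (ssubset_of_subset_of_ne s1 n2) ((coe_subset.2 s1).trans hY)
    have a2 := ih (Y \ Y1) (sdiff_ssubset s1 n1) ((coe_subset.2 sdiff_subset).trans hY)
    have dj : Disjoint (Nb S R Y1) (Nb S R (Y \ Y1)) := by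
      refine disjoint_left.2 fun w h1 h2 => ?_
      obtain ⟨⟨s, hs, a, ha, rfl⟩, -⟩ := mem_Nb.1 h1
      obtain ⟨⟨t, ht, b, hb, e⟩, -⟩ := mem_Nb.1 h2
      refine hd a ha b (mem_sdiff.1 hb).1 (mem_sdiff.1 hb).2
        (Finset.mem_mul.2 ⟨t⁻¹, inv_mem_inv ht, s, hs, ?_⟩)
      rw [eq_mul_inv_iff_mul_eq, mul_assoc, ← e, inv_mul_cancel_left]
    have sub : Nb S R Y1 ∪ Nb S R (Y \ Y1) ⊆ Nb S R Y := by
      intro w hw
      rcases mem_union.1 hw with hw | hw <;> obtain ⟨⟨s, hs, a, ha, e⟩, r⟩ := mem_Nb.1 hw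
      · exact mem_Nb.2 ⟨⟨s, hs, a, s1 ha, e⟩, r⟩
      · exact mem_Nb.2 ⟨⟨s, hs, a, (mem_sdiff.1 ha).1, e⟩, r⟩
    have := card_le_card sub
    rw [card_union_of_disjoint dj] at this
    have := card_sdiff_add_card_eq_card s1
    omega

lemma one_mem_T {S : Finset G} (hS : S.Nonempty) : (1 : G) ∈ S⁻¹ * S := by
  obtain ⟨s, hs⟩ := hS
  exact Finset.mem_mul.2 ⟨s⁻¹, inv_mem_inv hs, s, hs, inv_mul_cancel s⟩

lemma Un.grow {S Y : Finset G} (hS : S.Nonempty) (h : Un S Y) {y : G} (hy : y ∈ Y) (j : ℕ) :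
    min (j + 1) Y.card ≤ (Y.filter fun b => b * y⁻¹ ∈ (S⁻¹ * S) ^ j).card := by
  induction j with
  | zero =>
    refine (min_le_left _ _).trans (card_pos.2 ⟨y, mem_filter.2 ⟨hy, by simp⟩⟩)
  | succ j ih =>
    have sub : (Y.filter fun b => b * y⁻¹ ∈ (S⁻¹ * S) ^ j) ⊆
        Y.filter fun b => b * y⁻¹ ∈ (S⁻¹ * S) ^ (j + 1) := fun b hb =>
      mem_filter.2 ⟨(mem_filter.1 hb).1, pow_subset_pow_right (one_mem_T hS) (Nat.le_succ j)
        (mem_filter.1 hb).2⟩
    by_cases e : (Y.filter fun b => b * y⁻¹ ∈ (S⁻¹ * S) ^ j) = Y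
    · have := card_le_card sub
      rw [e] at this
      exact (min_le_right _ _).trans this
    · obtain ⟨a, ha, b, hb, b1, b2⟩ := h _ (filter_subset _ _)
        ⟨y, mem_filter.2 ⟨hy, by simpa using one_mem_pow (one_mem_T hS)⟩⟩ e
      have : b ∈ Y.filter fun b => b * y⁻¹ ∈ (S⁻¹ * S) ^ (j + 1) := by
        refine mem_filter.2 ⟨hb, ?_⟩
        rw [pow_succ']
        exact Finset.mem_mul.2 ⟨_, b2, _, (mem_filter.1 ha).2, by group⟩
      have := card_lt_card ((ssubset_iff_of_subset sub).2 ⟨b, this, b1⟩)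
      omega

lemma HI.step {S : Finset G} {L R : Set G} {p n : ℕ} (h : HI S L R p n) (hp : 0 < p)
    {Hs L0 : Set G} {μ : G → G} (h1 : μ 1 ∈ S) (h1' : (1 : G) ∈ L0) {Bl : Finset G}
    (hB : Bl = (S⁻¹ * S) ^ (max n (2 * p) + 1))
    (sp : ∀ g ∈ S * Bl ∪ Bl, ∀ g' ∈ S * Bl ∪ Bl, ∀ h ∈ Hs, ∀ h' ∈ Hs, g * h = g' * h' → g = g')
    (loc : ∀ h ∈ Hs, ∀ g ∈ Bl, g * h ∈ L → g ∈ L0)
    (inj : Set.InjOn μ (↑Bl ∩ L0))
    (hμ : ∀ g ∈ Bl, g ∈ L0 → (∃ s ∈ S, μ g = s * g) ∧ ∀ h ∈ Hs, μ g * h ∈ R) :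
    HI S (L \ Hs) (R \ {w | (μ 1)⁻¹ * w ∈ Hs}) (2 * p) (max n (2 * p)) := by
  classical
  have hS : S.Nonempty := ⟨_, h1⟩
  have oB : (1 : G) ∈ Bl := hB ▸ one_mem_pow (one_mem_T hS)
  have near : ∀ (y b w : G), ∀ s ∈ S, s * y = w → b * y⁻¹ ∈ (S⁻¹ * S) ^ (max n (2 * p)) →
      b * ((μ 1)⁻¹ * w)⁻¹ ∈ Bl := by
    rintro y b _ s hs rfl hb
    rw [hB, pow_succ]
    exact Finset.mem_mul.2 ⟨_, hb, s⁻¹ * μ 1,
      Finset.mem_mul.2 ⟨_, inv_mem_inv hs, _, h1, rfl⟩, by group⟩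
  have big : ∀ Y : Finset G, ↑Y ⊆ L \ Hs → Un S Y → max n (2 * p) ≤ Y.card →
      (2 * p + 1) * Y.card ≤ 2 * p * (Nb S (R \ {w | (μ 1)⁻¹ * w ∈ Hs}) Y).card := by
    intro Y hY hu hn
    have a1 := h.h1 Y (hY.trans Set.diff_subset) hu ((le_max_left _ _).trans hn)
    set E := (S * Y).filter fun w => (μ 1)⁻¹ * w ∈ Hs with hE
    have a2 : (Nb S R Y).card ≤ (Nb S (R \ {w | (μ 1)⁻¹ * w ∈ Hs}) Y).card + E.card := by
      refine (card_le_card fun w hw => ?_).trans (card_union_le _ _)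
      obtain ⟨b1, b2⟩ := mem_Nb.1 hw
      by_cases c : (μ 1)⁻¹ * w ∈ Hs
      · exact mem_union_right _ (mem_filter.2 ⟨Finset.mem_mul.2 b1, c⟩)
      · exact mem_union_left _ (mem_Nb.2 ⟨b1, b2, c⟩)
    have a3 : 2 * p * E.card ≤ Y.card := by
      have e1 : ∑ w ∈ E, (Y.filter fun b => b * ((μ 1)⁻¹ * w)⁻¹ ∈ Bl).card ≤ Y.card := by
        rw [← card_biUnion]
        · exact card_le_card (biUnion_subset.2 fun w _ => filter_subset _ _)
        · intro w hw w' hw' ne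
          refine disjoint_left.2 fun b b1 b2 => ne ?_
          have := sp _ (mem_union_right _ (mem_filter.1 b1).2) _
            (mem_union_right _ (mem_filter.1 b2).2) _ (mem_filter.1 hw).2 _
            (mem_filter.1 hw').2 (by group)
          simpa using this
      refine le_trans ?_ e1
      rw [mul_comm, ← smul_eq_mul]
      refine card_nsmul_le_sum _ _ _ fun w hw => ?_
      obtain ⟨s, hs, y, hy, e⟩ := Finset.mem_mul.1 (mem_filter.1 hw).1
      have := hu.grow hS hy (max n (2 * p))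
      refine le_trans (by omega) (this.trans (card_le_card fun b hb => ?_))
      exact mem_filter.2 ⟨(mem_filter.1 hb).1, near y b w s hs e (mem_filter.1 hb).2⟩
    nlinarith
  refine ⟨hall_of_un fun Y hY hu => ?_, big⟩
  by_cases hn : max n (2 * p) ≤ Y.card
  · have := big Y hY hu hn
    by_contra hc
    nlinarith
  by_cases hE : ∃ w ∈ S * Y, (μ 1)⁻¹ * w ∈ Hs
  swap
  · push Not at hE
    refine (h.h0 Y (hY.trans Set.diff_subset)).trans (card_le_card fun w hw => ?_)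
    obtain ⟨b1, b2⟩ := mem_Nb.1 hw
    exact mem_Nb.2 ⟨b1, b2, hE w (Finset.mem_mul.2 b1)⟩
  obtain ⟨w, hw, hh⟩ := hE
  obtain ⟨s, hs, y, hy, e⟩ := Finset.mem_mul.1 hw
  set k := (μ 1)⁻¹ * w with hk
  have all : ∀ b ∈ Y, b * k⁻¹ ∈ Bl := by
    have := hu.grow hS hy (max n (2 * p))
    have e2 := eq_of_subset_of_card_le (filter_subset
      (fun b => b * y⁻¹ ∈ (S⁻¹ * S) ^ (max n (2 * p))) Y) (by omega)
    intro b hb
    rw [← e2] at hb
    exact near y b w s hs e (mem_filter.1 hb).2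
  have al0 : ∀ b ∈ Y, b * k⁻¹ ∈ L0 := fun b hb =>
    loc k hh _ (all b hb) (by simpa using (hY hb).1)
  refine card_le_card_of_injOn (fun b => μ (b * k⁻¹) * k) (fun b hb => ?_) fun b hb c hc e => ?_
  · obtain ⟨⟨t, ht, e1⟩, e2⟩ := hμ _ (all b hb) (al0 b hb)
    refine mem_coe.2 (mem_Nb.2 ⟨⟨t, ht, b, hb, by
      dsimp only
      rw [e1, mul_assoc, inv_mul_cancel_right]⟩, e2 k hh, fun c => ?_⟩)
    have := sp (μ (b * k⁻¹)) (mem_union_left _ (e1 ▸ mul_mem_mul ht (all b hb))) (μ 1)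
      (mem_union_left _ (by simpa using mul_mem_mul h1 oB)) k hh _ c (by simp)
    have := inj ⟨all b hb, al0 b hb⟩ ⟨oB, h1'⟩ this
    rw [mul_inv_eq_one] at this
    exact (hY hb).2 (this ▸ hh)
  · simpa using inj ⟨all b hb, al0 b hb⟩ ⟨all c hc, al0 c hc⟩ (mul_right_cancel e)

lemma HI.matching {S : Finset G} {L R : Set G} {p n : ℕ} (h : HI S L R p n) (Bl : Finset G) :
    ∃ μ : G → G, Set.InjOn μ (↑Bl ∩ L) ∧ ∀ g ∈ Bl, g ∈ L → (∃ s ∈ S, μ g = s * g) ∧ μ g ∈ R := by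
  classical
  obtain ⟨f, f1, f2⟩ := (all_card_le_biUnion_card_iff_exists_injective
    fun g : {g // g ∈ Bl ∧ g ∈ L} => Nb S R {g.1}).1 fun t => by
      have := h.h0 (t.map (Function.Embedding.subtype _)) (by
        intro g hg
        obtain ⟨a, -, rfl⟩ := mem_map.1 (mem_coe.1 hg)
        exact a.2.2)
      rw [card_map] at this
      refine this.trans (card_le_card fun w hw => ?_)
      obtain ⟨⟨s, hs, y, hy, e⟩, r⟩ := mem_Nb.1 hw
      obtain ⟨a, ha, rfl⟩ := mem_map.1 hy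
      exact mem_biUnion.2 ⟨a, ha, mem_Nb.2 ⟨⟨s, hs, _, mem_singleton_self _, e⟩, r⟩⟩
  refine ⟨fun g => if hg : g ∈ Bl ∧ g ∈ L then f ⟨g, hg⟩ else 1, fun a ha b hb e => ?_,
    fun g g1 g2 => ?_⟩
  · have ha' : a ∈ Bl ∧ a ∈ L := ha
    have hb' : b ∈ Bl ∧ b ∈ L := hb
    simp only [dif_pos ha', dif_pos hb'] at e
    exact congrArg Subtype.val (f1 e)
  · simp only [dif_pos (And.intro g1 g2)]
    obtain ⟨⟨s, hs, y, hy, e⟩, r⟩ := mem_Nb.1 (f2 ⟨g, g1, g2⟩)
    rw [mem_singleton.1 hy] at e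
    exact ⟨⟨s, hs, e.symm⟩, r⟩

open Classical in
lemma HI.base {S : Finset G} {L R : Set G} {m : ℕ} (hm : 0 < m)
    (h1 : ∀ g ∈ L, 2 * m ≤ (S.filter fun s => s * g ∈ R).card)
    (h2 : ∀ w, (S.filter fun s => s⁻¹ * w ∈ L).card ≤ m) : HI S L R 1 0 := by
  have key : ∀ Y : Finset G, ↑Y ⊆ L → 2 * Y.card ≤ (Nb S R Y).card := by
    intro Y hY
    have := card_mul_le_card_mul (fun (y w : G) => w * y⁻¹ ∈ S) (s := Y) (t := Nb S R Y)
      (m := 2 * m) (n := m) (fun y hy => ?_) fun w hw => ?_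
    · by_contra hc
      nlinarith
    · refine (h1 y (hY hy)).trans (card_le_card_of_injOn (· * y) (fun s hs => ?_)
        (mul_left_injective y).injOn)
      obtain ⟨a, b⟩ := mem_filter.1 (mem_coe.1 hs)
      exact mem_coe.2 ((mem_bipartiteAbove _).2 ⟨mem_Nb.2 ⟨⟨s, a, y, hy, rfl⟩, b⟩, by simpa⟩)
    · refine le_trans (card_le_card_of_injOn (fun y => w * y⁻¹) (fun y hy => ?_)
        fun a _ b _ e => by simpa using e) (h2 w)
      obtain ⟨a, b⟩ := (mem_bipartiteBelow _).1 (mem_coe.1 hy)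
      exact mem_coe.2 (mem_filter.2 ⟨b, by simpa using hY a⟩)
  exact ⟨fun Y hY => by have := key Y hY; omega, fun Y hY _ _ => by have := key Y hY; omega⟩

end comb

variable {X G : Type} [TopologicalSpace X] [Group G] [MulAction G X] [ContinuousConstSMul G X]
  [DecidableEq G]

def Rt (S : Finset G) (f : X → Option G) (y : X) : Prop := ∃ s ∈ S, f (s⁻¹ • y) = some s

structure HS (S : Finset G) (Z D : X → Prop) (f : X → Option G) (p n : ℕ) : Prop where
  lc : Lc f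
  pos : 0 < p
  mem : ∀ x s, f x = some s → s ∈ S ∧ Z x ∧ D (s • x)
  inj : ∀ x s x' s', f x = some s → f x' = some s' → s • x = s' • x' → x = x'
  hi : ∀ᶠ z in residual X, HI S {g | Z (g • z) ∧ f (g • z) = none}
    {g | D (g • z) ∧ ¬ Rt S f (g • z)} p n

omit [DecidableEq G] in
lemma Rt.lc {S : Finset G} {f : X → Option G} (h : Lc f) : Lc (Rt S f) := by
  have := (Lc.pi fun s : S => h.smul s.1⁻¹).comp fun v => ∃ s : S, v s = some s.1
  simp only [Subtype.exists, exists_prop] at this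
  exact this

variable [T2Space X] [BaireSpace X] [Countable G]

lemma HS.step {S : Finset G} {Z D : X → Prop} (hZ : Lc Z) (hD : Lc D) {f : X → Option G}
    {p n : ℕ} (h : HS S Z D f p n)
    (hfree : ∀ g : G, g ≠ 1 → ∀ᶠ x in residual X, g • x ≠ x)
    {U : Set X} (hU : IsOpen U) (hU' : U.Nonempty) :
    ∃ (f' : X → Option G) (p' n' : ℕ), HS S Z D f' p' n' ∧ (∀ x s, f x = some s → f' x = some s) ∧
      ∃ V : Set X, IsOpen V ∧ V.Nonempty ∧ V ⊆ U ∧
        ((∀ y ∈ V, ¬ Z y) ∨ ∃ s, ∀ y ∈ V, f' y = some s) := by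
  classical
  have lc : Lc fun y => (Z y, D y, f y, Rt S f y) :=
    (hZ.comp₂ hD Prod.mk).comp₂ (h.lc.comp₂ (Rt.lc (S := S) h.lc) Prod.mk)
      fun a b => (a.1, a.2, b.1, b.2)
  have hgen : ∀ᶠ x in residual X, ∀ g : G, (∀ᶠ y in 𝓝 x,
      (Z (g • y), D (g • y), f (g • y), Rt S f (g • y)) =
        (Z (g • x), D (g • x), f (g • x), Rt S f (g • x))) ∧ (g ≠ 1 → g • x ≠ x) := by
    refine eventually_countable_forall.2 fun g => (lc.smul g).and ?_
    by_cases e : g = 1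
    · exact Eventually.of_forall fun _ h => absurd e h
    · filter_upwards [hfree g e] with x hx _ using hx
  obtain ⟨x, hxU, hx, hi⟩ := (dense_of_mem_residual (hgen.and h.hi)).inter_open_nonempty U hU hU'
  set Bl := (S⁻¹ * S) ^ (max n (2 * p) + 1) with hB
  obtain ⟨V, v1, v2, v3, v4⟩ := small_nhds (G := G)
    (R := ↑(insert 1 (S * Bl ∪ Bl))) (finite_toSet _) (x := x)
    (fun g _ g' _ e => by
      by_contra ne
      exact (hx (g'⁻¹ * g)).2 (fun c => ne (by rw [← mul_one g', ← c]; simp))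
        (by rw [mul_smul, e, inv_smul_smul]))
    (inter_mem (hU.mem_nhds hxU)
      ((eventually_all_finset (insert 1 (S * Bl ∪ Bl))).2 fun g _ => (hx g).1))
  have w : ∀ y ∈ V, ∀ g ∈ insert 1 (S * Bl ∪ Bl), (Z (g • y) ↔ Z (g • x)) ∧
      (D (g • y) ↔ D (g • x)) ∧ f (g • y) = f (g • x) ∧ (Rt S f (g • y) ↔ Rt S f (g • x)) := by
    intro y hy g hg
    have := (v3 hy).2 g hg
    simpa only [Prod.mk.injEq, eq_iff_iff] using this
  have w1 : ∀ y ∈ V, (Z y ↔ Z x) ∧ f y = f x := fun y hy => by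
    have := w y hy 1 (mem_insert_self _ _)
    simp only [one_smul] at this
    exact ⟨this.1, this.2.2.1⟩
  by_cases hz : Z x
  swap
  · exact ⟨f, p, n, h, fun _ _ a => a, V, v1, ⟨x, v2⟩, fun y hy => (v3 hy).1,
      Or.inl fun y hy a => hz ((w1 y hy).1.1 a)⟩
  rcases hf : f x with _ | s
  swap
  · exact ⟨f, p, n, h, fun _ _ a => a, V, v1, ⟨x, v2⟩, fun y hy => (v3 hy).1,
      Or.inr ⟨s, fun y hy => (w1 y hy).2.trans hf⟩⟩
  obtain ⟨μ, m1, m2⟩ := hi.matching (insert 1 Bl)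
  have o1 : (1 : G) ∈ {g : G | Z (g • x) ∧ f (g • x) = none} := by simpa using ⟨hz, hf⟩
  obtain ⟨⟨s, hs, es⟩, r0⟩ := m2 1 (mem_insert_self _ _) o1
  rw [mul_one] at es
  have h1 : μ 1 ∈ S := es ▸ hs
  have oB : (1 : G) ∈ Bl := one_mem_pow (one_mem_T ⟨_, h1⟩)
  have h1' : μ 1 ∈ insert 1 (S * Bl ∪ Bl) :=
    mem_insert_of_mem (mem_union_left _ (by simpa using mul_mem_mul h1 oB))
  have fV : ∀ y ∈ V, f y = none := fun y hy => (w1 y hy).2.trans hf
  have rV : ∀ y ∈ V, D (μ 1 • y) ∧ ¬ Rt S f (μ 1 • y) := fun y hy =>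
    ⟨(w y hy _ h1').2.1.2 r0.1, fun a => r0.2 ((w y hy _ h1').2.2.2.1 a)⟩
  have rt : ∀ y, Rt S (fun y => if y ∈ V then some (μ 1) else f y) y ↔
      Rt S f y ∨ (μ 1)⁻¹ • y ∈ V := by
    intro y
    constructor
    · rintro ⟨t, ht, e⟩
      dsimp only at e
      split_ifs at e with c
      · obtain rfl := Option.some.inj e
        exact Or.inr c
      · exact Or.inl ⟨t, ht, e⟩
    · rintro (⟨t, ht, e⟩ | c)
      · refine ⟨t, ht, ?_⟩
        dsimp only
        rw [if_neg fun c => by simp [fV _ c] at e, e]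
      · exact ⟨μ 1, h1, if_pos c⟩
  refine ⟨fun y => if y ∈ V then some (μ 1) else f y, 2 * p, max n (2 * p),
    ⟨(Lc.of_isOpen v1).comp₂ h.lc fun a b => if a then some (μ 1) else b, by have := h.pos; omega,
      fun y t e => ?_, fun y t y' t' e e' c => ?_, ?_⟩, fun y t e => ?_, V, v1, ⟨x, v2⟩,
      fun y hy => (v3 hy).1, Or.inr ⟨μ 1, fun y hy => if_pos hy⟩⟩
  · split_ifs at e with c
    · obtain rfl := Option.some.inj e
      exact ⟨h1, (w1 y c).1.2 hz, (rV y c).1⟩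
    · exact h.mem y t e
  · split_ifs at e e' with c1 c2 c2
    · obtain rfl := Option.some.inj e
      obtain rfl := Option.some.inj e'
      exact smul_left_cancel _ c
    · obtain rfl := Option.some.inj e
      exact absurd ⟨t', (h.mem _ _ e').1, by rw [c, inv_smul_smul, e']⟩ (rV y c1).2
    · obtain rfl := Option.some.inj e'
      exact absurd ⟨t, (h.mem _ _ e).1, by rw [← c, inv_smul_smul, e]⟩ (rV y' c2).2
    · exact h.inj _ _ _ _ e e' c
  · filter_upwards [h.hi] with z hz'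
    have := hz'.step h.pos (Hs := {g | g • z ∈ V}) (μ := μ) h1 o1 hB
      (fun g hg g' hg' k hk k' hk' e => v4 g (mem_coe.2 (mem_insert_of_mem hg)) g'
        (mem_coe.2 (mem_insert_of_mem hg')) _ hk _ hk' (by rw [← mul_smul, e, mul_smul]))
      (fun k hk g hg a => by
        have := w _ hk g (mem_insert_of_mem (mem_union_right _ hg))
        rw [← mul_smul] at this
        exact And.intro (this.1.1 a.1) (this.2.2.1.symm.trans a.2))
      (m1.mono (Set.inter_subset_inter_left _ (coe_subset.2 (subset_insert _ _))))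
      (fun g hg a => by
        obtain ⟨⟨t, ht, e⟩, r⟩ := m2 g (mem_insert_of_mem hg) a
        refine ⟨⟨t, ht, e⟩, fun k hk => ?_⟩
        have := w _ hk (μ g) (mem_insert_of_mem (mem_union_left _ (e ▸ mul_mem_mul ht hg)))
        rw [← mul_smul] at this
        exact ⟨this.2.1.2 r.1, fun a => r.2 (this.2.2.2.1 a)⟩)
    convert this using 1
    · ext g
      by_cases c : g • z ∈ V <;> simp [c]
    · ext g
      simp only [Set.mem_setOf_eq, Set.mem_diff, rt, mul_smul]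
      tauto
  · dsimp only
    rw [if_neg fun c => by simp [fV _ c] at e, e]

open Classical in
theorem baire_hall0 [SecondCountableTopology X] [Nonempty X] {S : Finset G} {Z D : X → Prop}
    (hZ : Lc Z) (hD : Lc D) (hfree : ∀ g : G, g ≠ 1 → ∀ᶠ x in residual X, g • x ≠ x)
    {m : ℕ} (hm : 0 < m)
    (h1 : ∀ᶠ x in residual X, Z x → 2 * m ≤ (S.filter fun s => D (s • x)).card)
    (h2 : ∀ᶠ y in residual X, (S.filter fun s => Z (s⁻¹ • y)).card ≤ m) :
    ∃ w : X → ℕ, Lc w ∧ Eqd G (fun x => ind (Z x)) w ∧ ∀ x, w x ≤ ind (D x) := by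
  obtain ⟨b, b1, b2, b3⟩ := TopologicalSpace.exists_countable_basis X
  obtain ⟨U, hU⟩ := b1.exists_eq_range (by
    obtain ⟨x⟩ := ‹Nonempty X›
    obtain ⟨t, ht, -⟩ := b3.exists_subset_of_mem_open (Set.mem_univ x) isOpen_univ
    exact ⟨t, ht⟩)
  have hUb : ∀ n, U n ∈ b := fun n => hU ▸ Set.mem_range_self n
  have base : HS S Z D (fun _ => none) 1 0 := by
    refine ⟨Lc.const _, one_pos, by simp, by simp, ?_⟩
    filter_upwards [eventually_countable_forall.2 fun g : G => (res_smul g h1).and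
      (res_smul g h2)] with z hz
    refine HI.base hm (fun g hg => ?_) fun g => ?_
    · simpa [Rt, mul_smul] using (hz g).1 hg.1
    · simpa [mul_smul] using (hz g).2
  have step := fun (s : {q : (X → Option G) × ℕ × ℕ // HS S Z D q.1 q.2.1 q.2.2}) (n : ℕ) =>
    s.2.step hZ hD hfree (b3.isOpen (hUb n))
      (Set.nonempty_iff_ne_empty.2 fun e => b2 (e ▸ hUb n))
  choose fn pn nn s1 s2 V v1 v2 v3 v4 using step
  let s : ℕ → {q : (X → Option G) × ℕ × ℕ // HS S Z D q.1 q.2.1 q.2.2} := fun n =>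
    Nat.rec ⟨(fun _ => none, 1, 0), base⟩ (fun k t => ⟨(fn t k, pn t k, nn t k), s1 t k⟩) n
  have froz : ∀ n m, n ≤ m → ∀ x t, (s n).1.1 x = some t → (s m).1.1 x = some t := by
    intro n m hnm x t hx
    induction m, hnm using Nat.le_induction with
    | base => exact hx
    | succ m _ ih => exact s2 (s m) m x t ih
  set F : X → G → Prop := fun x t => ∃ n, (s n).1.1 x = some t with hF
  have f1 : ∀ x t, F x t → t ∈ S ∧ Z x ∧ D (t • x) := fun x t ⟨n, hn⟩ => (s n).2.mem x t hn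
  have f2 : ∀ x t t', F x t → F x t' → t = t' := fun x t t' ⟨n, hn⟩ ⟨n', hn'⟩ =>
    Option.some.inj ((froz _ _ (le_max_left n n') x t hn).symm.trans
      (froz _ _ (le_max_right n n') x t' hn'))
  have f3 : ∀ x t x' t', F x t → F x' t' → t • x = t' • x' → x = x' :=
    fun x t x' t' ⟨n, hn⟩ ⟨n', hn'⟩ => (s _).2.inj _ _ _ _ (froz _ _ (le_max_left n n') x t hn)
      (froz _ _ (le_max_right n n') x' t' hn')
  have hO : ∀ᶠ x in residual X, ∃ n, x ∈ V (s n) n := by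
    have : {x | ∃ n, x ∈ V (s n) n} = ⋃ n, V (s n) n := by ext; simp
    refine residual_of_dense_open (this ▸ isOpen_iUnion fun n => v1 _ _) ?_
    refine b3.dense_iff.2 fun o ho _ => ?_
    obtain ⟨n, rfl⟩ : o ∈ Set.range U := hU ▸ ho
    obtain ⟨x, hx⟩ := v2 (s n) n
    exact ⟨x, v3 _ _ hx, n, hx⟩
  have lF : ∀ t, Lc fun x => ind (F x t) := by
    intro t
    filter_upwards [hO] with x ⟨n, hn⟩
    filter_upwards [(v1 _ _).mem_nhds hn] with y hy
    rcases v4 (s n) n with c | ⟨u, c⟩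
    · rw [ind_neg fun a => c y hy (f1 _ _ a).2.1, ind_neg fun a => c x hn (f1 _ _ a).2.1]
    · have a1 : F x u := ⟨n + 1, c x hn⟩
      have a2 : F y u := ⟨n + 1, c y hy⟩
      congr 1
      exact propext ⟨fun a => f2 _ _ _ a2 a ▸ a1, fun a => f2 _ _ _ a1 a ▸ a2⟩
  refine ⟨fun y => ∑ t : S, ind (F (t.1⁻¹ • y) t), Lc.sum fun t => (lF t.1).smul t.1⁻¹,
    Eqd.mk' (fun t : S => t.1) (fun t x => ind (F x t)) (fun t => lF t) ?_
      (Eventually.of_forall fun _ => rfl), fun y => ?_⟩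
  · filter_upwards [hO] with x ⟨n, hn⟩
    rcases v4 (s n) n with c | ⟨u, c⟩
    · rw [ind_neg (c x hn)]
      exact Finset.sum_eq_zero fun t _ => ind_neg fun a => c x hn (f1 _ _ a).2.1
    · have a1 : F x u := ⟨n + 1, c x hn⟩
      rw [ind_pos (f1 _ _ a1).2.1, Finset.sum_eq_single ⟨u, (f1 _ _ a1).1⟩
        (fun t _ ne => ind_neg fun a => ne (Subtype.ext (f2 _ _ _ a a1))) (by simp), ind_pos a1]
  · by_cases c : ∃ t : S, F (t.1⁻¹ • y) t
    · obtain ⟨t, ht⟩ := c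
      have := (f1 _ _ ht).2.2
      rw [smul_inv_smul] at this
      dsimp only
      rw [ind_pos this, Finset.sum_eq_single t (fun u _ ne => ind_neg fun a => ne ?_) (by simp),
        ind_pos ht]
      have e := f3 _ _ _ _ a ht (by simp)
      exact Subtype.ext (f2 _ _ _ a (e ▸ ht))
    · push Not at c
      dsimp only
      rw [Finset.sum_eq_zero fun t _ => ind_neg (c t)]
      exact Nat.zero_le _

omit [Countable G] [DecidableEq G] in
open Classical in
theorem baire_hall [SecondCountableTopology X] [Nonempty X] {S : Finset G} {Z D : X → Prop}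
    (hZ : Lc Z) (hD : Lc D) (hfree : ∀ g : G, g ≠ 1 → ∀ᶠ x in residual X, g • x ≠ x)
    {m : ℕ} (hm : 0 < m)
    (h1 : ∀ᶠ x in residual X, Z x → 2 * m ≤ (S.filter fun s => D (s • x)).card)
    (h2 : ∀ᶠ y in residual X, (S.filter fun s => Z (s⁻¹ • y)).card ≤ m) :
    ∃ w : X → ℕ, Lc w ∧ Eqd G (fun x => ind (Z x)) w ∧ ∀ x, w x ≤ ind (D x) := by
  set Γ := Subgroup.closure (S : Set G) with hΓ
  haveI : Countable Γ := by
    rw [hΓ, ← Subtype.range_coe (s := (S : Set G)), ← FreeGroup.range_lift_eq_closure]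
    exact (Set.countable_range _).to_subtype
  haveI : ContinuousConstSMul Γ X := ⟨fun a => continuous_const_smul a.1⟩
  have e : ∀ q : G → Prop, ((S.subtype (· ∈ Γ)).filter fun s => q s.1).card =
      (S.filter q).card := fun q => by
    refine card_bij (fun s _ => s.1) (fun s hs => ?_) (fun a _ b _ e => Subtype.ext e)
      fun s hs => ⟨⟨s, Subgroup.subset_closure (mem_filter.1 hs).1⟩, ?_, rfl⟩
    · simpa using hs
    · simpa using hs
  obtain ⟨w, w1, ⟨n, γ, π, w2⟩, w3⟩ := baire_hall0 (G := Γ) (S := S.subtype (· ∈ Γ)) hZ hD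
    (fun g hg => hfree g.1 fun h => hg (Subtype.ext h)) hm
    (by
      filter_upwards [h1] with x hx hz
      rw [← e] at hx
      convert hx hz using 3
      exact Iff.rfl)
    (by
      filter_upwards [h2] with x hx
      rw [← e] at hx
      convert hx using 3
      exact Iff.rfl)
  exact ⟨w, w1, ⟨n, fun i => (γ i).1, π, w2⟩, w3⟩

end Pool.Agent.H.MP_95d7dd_gt
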