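import Pool.Agent.H.MP_bf94fe_gt.Round
import Pool.Agent.H.MP_95d7dd_gt.Graph

set_option autoImplicit false

namespace Pool.Agent.H.MP_95d7dd_gt

open Filter Topology Finset Pool.Agent.H.MP_bf94fe_gt

variable {X G ι : Type} [TopologicalSpace X] [Group G] [MulAction G X] [Fintype ι] {σ : ι → G}

variable (σ) in
structure St' (D : Set X) (ψ0 : X → ι → ℤ) (M : ℤ) (ψ : X → ι → ℤ) (W : Set X) : Prop where
  lcψ : Lc ψ
  lcW : Lc fun x => x ∈ W
  div : ∀ x, dv σ ψ x = dv σ ψ0 x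
  sat : ∀ z : X, Sat σ {g : G | g • z ∈ W}
  oe : ∀ z : X, OE σ ({g : G | g • z ∉ D} ∪ {g : G | g • z ∈ W})
  sup : ∀ x i, ψ x i ≠ 0 → x ∈ D ∧ σ i • x ∈ D
  b0 : ∀ x i, x ∉ W → σ i • x ∉ W → |ψ x i| ≤ M
  b1 : ∀ x i, Odd (ψ x i) → |ψ x i| ≤ M + 1
  b2 : ∀ x i, |ψ x i| ≤ M + 2

variable [ContinuousConstSMul G X] [T2Space X]

variable [BaireSpace X] [Countable G]

lemma St'.step {D : Set X} (hD : IsOpen D) {ψ0 ψ : X → ι → ℤ} {M : ℤ} {W : Set X} (h : St' σ D ψ0 M ψ W)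
    (hfree : ∀ g : G, g ≠ 1 → ∀ᶠ x in residual X, g • x ≠ x)
    (hev : ∀ᶠ x in residual X, Even (dv σ ψ0 x)) {U : Set X} (hU : IsOpen U) (hU' : U.Nonempty) :
    ∃ (ψ' : X → ι → ℤ) (W' : Set X), St' σ D ψ0 M ψ' W' ∧ W ⊆ W' ∧
      (∀ x i, x ∈ W ∨ σ i • x ∈ W → Even (ψ x i) → ψ' x i = ψ x i) ∧
      ∃ V : Set X, IsOpen V ∧ V.Nonempty ∧ V ⊆ U ∧ V ⊆ W' ∧
        ∀ y ∈ V, ∀ i, Even (ψ' y i) ∧ Even (ψ' ((σ i)⁻¹ • y) i) := by
  classical
  have hgen : ∀ᶠ x in residual X, ∀ g : G, ((∀ᶠ y in 𝓝 x, ψ (g • y) = ψ (g • x)) ∧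
      (∀ᶠ y in 𝓝 x, (g • y ∈ W) = (g • x ∈ W)) ∧
      (∀ᶠ y in 𝓝 x, (g • y ∈ D) = (g • x ∈ D))) ∧ Even (dv σ ψ0 (g • x)) ∧
      (g ≠ 1 → g • x ≠ x) := by
    refine eventually_countable_forall.2 fun g => ((h.lcψ.smul g).and
      ((h.lcW.smul g).and ((Lc.of_isOpen hD).smul g))).and
      ((res_smul g hev).and ?_)
    by_cases e : g = 1
    · exact Eventually.of_forall fun _ h => absurd e h
    · filter_upwards [hfree g e] with x hx _ using hx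
  obtain ⟨x, hxU, hx⟩ := (dense_of_mem_residual hgen).inter_open_nonempty U hU hU'
  obtain ⟨L, l0, l1, l2, l3⟩ := grow' (h.sat x) (h.oe x) (Set.finite_singleton 1)
  obtain ⟨Z, c, c1, c2, c3, c4⟩ := local_round' (σ := σ) (fun g i => ψ (g • x) i) l0 l2 l3
    (fun g i ho => by
      have := h.sup (g • x) i (by rintro e; simp [e] at ho)
      exact ⟨not_not.2 this.1, not_not.2 (by rw [mul_smul]; exact this.2)⟩)
    fun g _ => by
      have := (hx g).2.1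
      rw [← h.div] at this
      simpa only [dv, mul_smul] using this
  obtain ⟨K, R, k1, hp⟩ := exists_patch' (h.sat x) (h.oe x)
    ((l0.union (Z.finite_toSet.image fun e => e.1)).union
      (Z.finite_toSet.image fun e => σ e.2 * e.1))
  have zK : ∀ e ∈ Z, e.1 ∈ K ∧ σ e.2 * e.1 ∈ K := fun e he =>
    ⟨k1 (Or.inl (Or.inr ⟨e, he, rfl⟩)), k1 (Or.inr ⟨e, he, rfl⟩)⟩
  have oneK : (1 : G) ∈ K := k1 (Or.inl (Or.inl (l1 rfl)))
  obtain ⟨V, v1, v2, v3, v4⟩ := small_nhds hp.fin (x := x)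
    (fun g _ g' _ e => by
      by_contra hne
      refine (hx (g'⁻¹ * g)).2.2 (fun e' => hne ?_) (by rw [mul_smul, e, inv_smul_smul])
      rw [inv_mul_eq_one] at e'
      exact e'.symm)
    (inter_mem (hU.mem_nhds hxU) ((eventually_all_finite hp.fin).2 fun g _ =>
      (hx g).1.1.and ((hx g).1.2.1.and (hx g).1.2.2)))
  have pψ : ∀ g ∈ R, ∀ y, g⁻¹ • y ∈ V → ψ y = ψ (g • x) := fun g hg y hy => by
    simpa using ((v3 hy).2 g hg).1
  have pW : ∀ g ∈ R, ∀ y, g⁻¹ • y ∈ V → (y ∈ W ↔ g • x ∈ W) := fun g hg y hy => by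
    simpa using ((v3 hy).2 g hg).2.1
  have pD : ∀ g ∈ R, ∀ y, g⁻¹ • y ∈ V → (y ∈ D ↔ g • x ∈ D) := fun g hg y hy => by
    simpa using ((v3 hy).2 g hg).2.2
  have uq : ∀ g ∈ R, ∀ g' ∈ R, ∀ y, g⁻¹ • y ∈ V → g'⁻¹ • y ∈ V → g = g' :=
    fun g hg g' hg' y hy hy' => v4 g hg g' hg' _ hy _ hy' (by simp)
  set ψ' : X → ι → ℤ := fun y i =>
    ψ y i - ∑ e ∈ Z, if e.2 = i ∧ e.1⁻¹ • y ∈ V then c e else 0 with hψ'
  set W' : Set X := W ∪ {y | ∃ g ∈ K, g⁻¹ • y ∈ V} with hW'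
  have caseA : ∀ y i g, (g, i) ∈ Z → g⁻¹ • y ∈ V → ψ' y i = ψ y i - c (g, i) := by
    intro y i g hg hy
    simp only [hψ']
    rw [Finset.sum_eq_single (g, i), if_pos ⟨rfl, hy⟩]
    · rintro ⟨g', j⟩ he hne
      rw [if_neg]
      rintro ⟨rfl, h2⟩
      exact hne (by rw [uq g' (hp.sub (zK _ he).1) g (hp.sub (zK _ hg).1) y h2 hy])
    · exact fun h' => absurd hg h'
  have caseB : ∀ y i, (¬ ∃ g, (g, i) ∈ Z ∧ g⁻¹ • y ∈ V) → ψ' y i = ψ y i := by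
    intro y i hn
    simp only [hψ']
    rw [Finset.sum_eq_zero, sub_zero]
    rintro ⟨g, j⟩ he
    rw [if_neg]
    rintro ⟨rfl, h2⟩
    exact hn ⟨g, he, h2⟩
  have cases' : ∀ y i, ψ' y i = ψ y i ∨ (y ∈ W' ∧ (ψ' y i = ψ y i - 1 ∨ ψ' y i = ψ y i + 1) ∧
      (Odd (ψ y i) ∨ (y ∉ W ∧ σ i • y ∉ W))) := by
    intro y i
    by_cases hA : ∃ g, (g, i) ∈ Z ∧ g⁻¹ • y ∈ V
    · obtain ⟨g, hg, hy⟩ := hA
      refine Or.inr ⟨Or.inr ⟨g, (zK _ hg).1, hy⟩, ?_, ?_⟩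
      · rw [caseA y i g hg hy]
        rcases c1 _ hg with e | e <;> simp [e]
      · refine (c4 _ hg).2.imp (fun a => ?_) fun a => ⟨?_, ?_⟩
        · rw [pψ g (hp.sub (zK _ hg).1) y hy]
          exact (c3 _ a).1 hg
        · rw [pW g (hp.sub (zK _ hg).1) y hy]
          exact a.1
        · rw [pW _ (hp.sub (zK _ hg).2) (σ i • y) (by simpa [mul_smul] using hy)]
          exact a.2
    · exact Or.inl (caseB y i hA)
  have hsup : ∀ y i, ψ' y i ≠ 0 → y ∈ D ∧ σ i • y ∈ D := by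
    intro y i hne
    by_cases hA : ∃ g, (g, i) ∈ Z ∧ g⁻¹ • y ∈ V
    · obtain ⟨g, hg, hy⟩ := hA
      rw [pD g (hp.sub (zK _ hg).1) y hy,
        pD _ (hp.sub (zK _ hg).2) (σ i • y) (by simpa [mul_smul] using hy)]
      exact ⟨not_not.1 (c4 _ hg).1.1, not_not.1 (c4 _ hg).1.2⟩
    · exact h.sup y i (caseB y i hA ▸ hne)
  have hev' : ∀ g ∈ R, ∀ y i, g⁻¹ • y ∈ V → (g ∈ L ∨ σ i * g ∈ L) → Even (ψ' y i) := by
    intro g hg y i hy hL
    by_cases hZ : (g, i) ∈ Z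
    · rw [caseA y i g hZ hy, pψ g hg y hy]
      refine ((c3 _ hL).1 hZ).sub_odd ?_
      rcases c1 _ hZ with e | e <;> simp [e]
    · rw [caseB y i, pψ g hg y hy]
      · exact Int.not_odd_iff_even.1 fun ho => hZ ((c3 (g, i) hL).2 ho)
      · rintro ⟨g', h1, h2⟩
        exact hZ (uq g' (hp.sub (zK _ h1).1) g hg y h2 hy ▸ h1)
  have hset : ∀ z : X, {g : G | g • z ∈ W'} =
      {g : G | g • z ∈ W} ∪ {g | ∃ k ∈ {k : G | k • z ∈ V}, g * k⁻¹ ∈ K} := by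
    intro z
    ext g
    refine or_congr Iff.rfl ⟨?_, ?_⟩
    · rintro ⟨k, h1, h2⟩
      exact ⟨k⁻¹ * g, by simpa [mul_smul] using h2, by simpa using h1⟩
    · rintro ⟨k, h1, h2⟩
      exact ⟨_, h2, by simpa [mul_smul] using h1⟩
  have dis : ∀ z : X, ∀ k ∈ {k : G | k • z ∈ V}, ∀ k' ∈ {k : G | k • z ∈ V}, ∀ g ∈ R, ∀ g' ∈ R,
      g * k = g' * k' → k = k' := by
    intro z k hk k' hk' g hg g' hg' e
    have := v4 g hg g' hg' _ hk _ hk' (by rw [← mul_smul, ← mul_smul, e])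
    subst this
    exact mul_left_cancel e
  have pat : ∀ z : X, ∀ k ∈ {k : G | k • z ∈ V}, ∀ g ∈ R,
      g * k ∈ {g : G | g • z ∈ W} ↔ g ∈ {g : G | g • x ∈ W} := fun z k hk g hg =>
    pW g hg _ (by simpa [mul_smul] using hk)
  have patE : ∀ z : X, ∀ k ∈ {k : G | k • z ∈ V}, ∀ g ∈ R,
      g * k ∈ {g : G | g • z ∉ D} ↔ g ∈ {g : G | g • x ∉ D} := fun z k hk g hg =>
    not_congr (pD g hg _ (by simpa [mul_smul] using hk))
  have lcV := Lc.of_isOpen v1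
  refine ⟨ψ', W', ⟨?_, ?_, fun y => ?_, fun z => ?_, fun z => ?_, hsup, fun y i a b => ?_,
    fun y i a => ?_, fun y i => ?_⟩, Set.subset_union_left, fun y i a b => ?_,
    V, v1, ⟨x, v2⟩, fun y hy => (v3 hy).1, fun y hy => Or.inr ⟨1, oneK, by simpa using hy⟩,
    fun y hy i => ⟨hev' 1 (hp.sub oneK) y i (by simpa using hy) (Or.inl (l1 rfl)),
      hev' (σ i)⁻¹ (hp.nb 1 oneK _ ⟨i, Or.inr (by simp)⟩) _ i (by simpa using hy)
        (Or.inr (by simpa using l1 rfl))⟩⟩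
  · have := h.lcψ.comp₂ (Lc.pi fun e : Z => lcV.smul (e.1.1)⁻¹) fun a p i =>
      a i - ∑ e : Z, if e.1.2 = i ∧ p e then c e.1 else 0
    refine (congrArg Lc (funext fun y => funext fun i => ?_)).mp this
    simp only [hψ']
    rw [Finset.sum_coe_sort Z fun e => if e.2 = i ∧ e.1⁻¹ • y ∈ V then c e else 0]
  · have : Finite K := (hp.fin.subset hp.sub).to_subtype
    have := h.lcW.comp₂ (Lc.pi fun k : K => lcV.smul (k.1)⁻¹) fun a p => a ∨ ∃ k, p k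
    refine (congrArg Lc (funext fun y => ?_)).mp this
    simp [hW']
  · have e1 : ∀ (t : ι → X), ∑ i, ψ' (t i) i = ∑ i, ψ (t i) i -
        ∑ e ∈ Z, c e * if e.1⁻¹ • t e.2 ∈ V then 1 else 0 := by
      intro t
      simp only [hψ', Finset.sum_sub_distrib]
      rw [Finset.sum_comm]
      congr 1
      refine Finset.sum_congr rfl fun e _ => ?_
      rw [Finset.sum_eq_single e.2]
      · simp
      · intro j _ hj
        rw [if_neg fun a => hj a.1.symm]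
      · simp
    have := c2 fun g => if g⁻¹ • y ∈ V then 1 else 0
    simp only [mul_sub, Finset.sum_sub_distrib, mul_inv_rev, mul_smul] at this
    rw [← h.div]
    unfold dv
    rw [e1 fun _ => y, e1 fun i => (σ i)⁻¹ • y]
    linarith
  · rw [hset]
    exact hp.sat' (dis z) (pat z) (h.sat z)
  · rw [hset]
    exact hp.oe' (dis z) (pat z) (patE z) (h.oe z)
  · rcases cases' y i with e | ⟨e, -⟩
    · rw [e]
      exact h.b0 y i (fun h' => a (Or.inl h')) fun h' => b (Or.inl h')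
    · exact absurd e a
  · rcases cases' y i with e | ⟨-, e, e' | e'⟩
    · rw [e] at a ⊢
      exact h.b1 y i a
    · exfalso
      rcases e with e | e <;> rw [e] at a
      · exact Int.not_even_iff_odd.2 a (e'.sub_odd odd_one)
      · exact Int.not_even_iff_odd.2 a (e'.add_odd odd_one)
    · have := abs_le.1 (h.b0 y i e'.1 e'.2)
      rw [abs_le]
      omega
  · rcases cases' y i with e | ⟨-, e, e' | e'⟩
    · rw [e]
      exact h.b2 y i
    · have := abs_le.1 (h.b1 y i e')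
      rw [abs_le]
      omega
    · have := abs_le.1 (h.b0 y i e'.1 e'.2)
      rw [abs_le]
      omega
  · rcases cases' y i with e | ⟨-, -, e' | e'⟩
    · exact e
    · exact absurd e' (Int.not_odd_iff_even.2 b)
    · exact absurd a (not_or.2 e')

/-- Generic halving of a bounded flow with even divergence. -/
theorem round' [SecondCountableTopology X] [Nonempty X] {D : Set X} (hD : IsOpen D) {ψ0 : X → ι → ℤ} {M : ℤ} (h0 : Lc ψ0)
    (hM : ∀ x i, |ψ0 x i| ≤ M) (hs : ∀ x i, ψ0 x i ≠ 0 → x ∈ D ∧ σ i • x ∈ D)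
    (hoe : ∀ z : X, OE σ {g : G | g • z ∉ D})
    (hfree : ∀ g : G, g ≠ 1 → ∀ᶠ x in residual X, g • x ≠ x)
    (hev : ∀ᶠ x in residual X, Even (dv σ ψ0 x)) :
    ∃ φ : X → ι → ℤ, Lc φ ∧ (∀ x i, |φ x i| ≤ M + 2) ∧
      (∀ x i, φ x i ≠ 0 → x ∈ D ∧ σ i • x ∈ D) ∧
      ∀ᶠ x in residual X, 2 * dv σ φ x = dv σ ψ0 x := by
  classical
  obtain ⟨b, b1, b2, b3⟩ := TopologicalSpace.exists_countable_basis X
  obtain ⟨U, hU⟩ := b1.exists_eq_range (by
    obtain ⟨x⟩ := ‹Nonempty X›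
    obtain ⟨t, ht, -⟩ := b3.exists_subset_of_mem_open (Set.mem_univ x) isOpen_univ
    exact ⟨t, ht⟩)
  have hUb : ∀ n, U n ∈ b := fun n => hU ▸ Set.mem_range_self n
  have base : St' σ D ψ0 M ψ0 ∅ := ⟨h0, Lc.const _, fun _ => rfl, fun _ => sat_empty,
    fun z => by simpa using hoe z, hs,
    fun x i _ _ => hM x i, fun x i _ => (hM x i).trans (by omega),
    fun x i => (hM x i).trans (by omega)⟩
  have step := fun (s : {p : (X → ι → ℤ) × Set X // St' σ D ψ0 M p.1 p.2}) (n : ℕ) =>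
    s.2.step hD hfree hev (b3.isOpen (hUb n))
      (Set.nonempty_iff_ne_empty.2 fun e => b2 (e ▸ hUb n))
  choose ψn Wn s1 s2 s3 V v1 v2 v3 v4 v5 using step
  let s : ℕ → {p : (X → ι → ℤ) × Set X // St' σ D ψ0 M p.1 p.2} := fun n =>
    Nat.rec ⟨(ψ0, ∅), base⟩ (fun k t => ⟨(ψn t k, Wn t k), s1 t k⟩) n
  have froz : ∀ n m, n ≤ m → ∀ x i, (x ∈ (s n).1.2 ∨ σ i • x ∈ (s n).1.2) ∧ Even ((s n).1.1 x i) →
      (x ∈ (s m).1.2 ∨ σ i • x ∈ (s m).1.2) ∧ (s m).1.1 x i = (s n).1.1 x i := by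
    intro n m hnm x i hx
    induction m, hnm using Nat.le_induction with
    | base => exact ⟨hx.1, rfl⟩
    | succ m _ ih =>
      refine ⟨ih.1.imp (fun a => s2 (s m) m a) fun a => s2 (s m) m a, ?_⟩
      rw [← ih.2]
      exact s3 (s m) m x i ih.1 (ih.2 ▸ hx.2)
  set ψ : X → ι → ℤ := fun x i =>
    if h : ∃ n, (x ∈ (s n).1.2 ∨ σ i • x ∈ (s n).1.2) ∧ Even ((s n).1.1 x i) then
      (s h.choose).1.1 x i else 0 with hψ
  have hval : ∀ n x i, (x ∈ (s n).1.2 ∨ σ i • x ∈ (s n).1.2) ∧ Even ((s n).1.1 x i) →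
      ψ x i = (s n).1.1 x i := by
    intro n x i hx
    have h : ∃ n, (x ∈ (s n).1.2 ∨ σ i • x ∈ (s n).1.2) ∧ Even ((s n).1.1 x i) := ⟨n, hx⟩
    simp only [hψ, dif_pos h]
    rw [← (froz _ _ (le_max_left h.choose n) x i h.choose_spec).2,
      ← (froz _ _ (le_max_right h.choose n) x i hx).2]
  have hb : ∀ x i, Even (ψ x i) ∧ |ψ x i| ≤ M + 2 := by
    intro x i
    simp only [hψ]
    split_ifs with h
    · exact ⟨h.choose_spec.2, (s _).2.b2 x i⟩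
    · exact ⟨Even.zero, by simpa using (abs_nonneg _).trans (base.b2 x i)⟩
  have hO : ∀ᶠ x in residual X, ∃ n, x ∈ V (s n) n := by
    have : {x | ∃ n, x ∈ V (s n) n} = ⋃ n, V (s n) n := by ext; simp
    refine residual_of_dense_open (this ▸ isOpen_iUnion fun n => v1 _ _) ?_
    refine b3.dense_iff.2 fun o ho _ => ?_
    obtain ⟨n, rfl⟩ : o ∈ Set.range U := hU ▸ ho
    obtain ⟨x, hx⟩ := v2 (s n) n
    exact ⟨x, v3 _ _ hx, n, hx⟩
  have hV : ∀ n, ∀ y ∈ V (s n) n, ∀ i, ψ y i = (s (n + 1)).1.1 y i ∧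
      ψ ((σ i)⁻¹ • y) i = (s (n + 1)).1.1 ((σ i)⁻¹ • y) i := fun n y hy i =>
    ⟨hval (n + 1) y i ⟨Or.inl (v4 _ _ hy), (v5 _ _ y hy i).1⟩,
      hval (n + 1) ((σ i)⁻¹ • y) i
        ⟨Or.inr (by rw [smul_inv_smul]; exact v4 _ _ hy), (v5 _ _ y hy i).2⟩⟩
  have hlc : Lc ψ := by
    filter_upwards [hO, eventually_countable_forall.2 fun n => (s n).2.lcψ] with x ⟨n, hn⟩ hx
    filter_upwards [(v1 _ _).mem_nhds hn, hx (n + 1)] with y hy e
    funext i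
    rw [(hV n y hy i).1, (hV n x hn i).1, e]
  refine ⟨fun x i => ψ x i / 2, hlc.comp fun a i => a i / 2, fun x i => ?_, fun x i hne => ?_, ?_⟩
  · have := abs_le.1 (hb x i).2
    show |ψ x i / 2| ≤ M + 2
    rw [abs_le]
    omega
  · have : ψ x i ≠ 0 := fun e => hne (by simp [e])
    simp only [hψ] at this
    split_ifs at this with h
    · exact (s _).2.sup x i this
    · exact absurd rfl this
  · filter_upwards [hO] with x ⟨n, hn⟩
    rw [← (s (n + 1)).2.div]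
    unfold dv
    rw [mul_sub, Finset.mul_sum, Finset.mul_sum]
    congr 1
    · refine Finset.sum_congr rfl fun i _ => ?_
      rw [← (hV n x hn i).1]
      exact Int.two_mul_ediv_two_of_even (hb _ _).1
    · refine Finset.sum_congr rfl fun i _ => ?_
      rw [← (hV n x hn i).2]
      exact Int.two_mul_ediv_two_of_even (hb _ _).1

end Pool.Agent.H.MP_95d7dd_gt
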