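import Pool.Agent.H.MP_95d7dd_gt.Win
import Pool.Agent.H.MP_95d7dd_gt.Cmp
import Pool.Agent.H.MP_95d7dd_gt.Round

set_option autoImplicit false

namespace Pool.Agent.H.MP_95d7dd_gt

open Filter Topology Finset Complex Pool.Agent.H.MP_bf94fe_gt

lemma Sq.isOpen (ρ : ℝ) : IsOpen (Sq ρ) :=
  (isOpen_lt continuous_re.abs continuous_const).inter
    (isOpen_lt continuous_im.abs continuous_const)

noncomputable def ee : Fin 4 → ℂ := ![1, I, (√2 : ℝ), (√3 : ℝ)]

variable {ι : Type} (σ : ι → Af)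

noncomputable def tau (k : Option ι × Fin 4) : ℂ := k.1.elim (ee k.2) fun i => (σ i).l (ee k.2)

noncomputable def sig : ι ⊕ Option ι × Fin 4 → Af := Sum.elim σ fun k => ⟨1, tau σ k⟩

theorem plane_round [Fintype ι] {ψ : ℂ → ι ⊕ Option ι × Fin 4 → ℤ} (h0 : Lc ψ)
    (hM : ∀ x i, |ψ x i| ≤ 1) {R : ℝ}
    (hs : ∀ x i, ψ x i ≠ 0 → ‖x‖ ≤ R ∧ ‖sig σ i • x‖ ≤ R)
    (hev : ∀ᶠ x in residual ℂ, Even (dv (sig σ) ψ x)) :
    ∃ (ρ : ℝ) (φ : ℂ → ι ⊕ Option ι × Fin 4 → ℤ), Lc φ ∧ (∀ x i, |φ x i| ≤ 1 + 2) ∧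
      (∀ x i, φ x i ≠ 0 → x ∈ Sq ρ ∧ sig σ i • x ∈ Sq ρ) ∧
      ∀ᶠ x in residual ℂ, 2 * dv (sig σ) φ x = dv (sig σ) ψ x := by
  set Γ := Subgroup.closure (Set.range (sig σ)) with hΓ
  haveI : Countable Γ := by
    rw [hΓ, ← FreeGroup.range_lift_eq_closure]
    exact (Set.countable_range _).to_subtype
  haveI : ContinuousConstSMul Γ ℂ := ⟨fun a => continuous_const_smul a.1⟩
  set σ' : ι ⊕ Option ι × Fin 4 → Γ := fun i => ⟨sig σ i, Subgroup.subset_closure ⟨i, rfl⟩⟩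
    with hσ'
  have c1 : ∀ g (hg : g ∈ Γ), Conn σ' Set.univ 1 ⟨g, hg⟩ := by
    intro g hg
    induction hg using Subgroup.closure_induction_left with
    | one => exact Relation.ReflTransGen.refl
    | mul_left x hx y hy ih =>
      obtain ⟨i, rfl⟩ := hx
      exact ih.trans (Conn.step trivial trivial ⟨i, Or.inl rfl⟩)
    | inv_mul_cancel x hx y hy ih =>
      obtain ⟨i, rfl⟩ := hx
      exact ih.trans (Conn.step trivial trivial ⟨i, Or.inr (Subtype.ext (by simp [hσ']))⟩)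
  set A := AddSubgroup.closure (Set.range (tau σ)) with hA
  have mem : ∀ a ∈ A, (⟨1, a⟩ : Af) ∈ Γ := by
    intro a ha
    induction ha using AddSubgroup.closure_induction with
    | mem x hx =>
      obtain ⟨k, rfl⟩ := hx
      exact (σ' (.inr k)).2
    | zero => exact one_mem Γ
    | add x y _ _ hx hy =>
      convert mul_mem hx hy using 1
      exact Af.ext (by simp) (by simp)
    | neg x _ hx =>
      convert inv_mem hx using 1
      exact Af.ext (by simp) (by simp)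
  set τ : Option ι × Fin 4 → A := fun k => ⟨tau σ k, AddSubgroup.subset_closure ⟨k, rfl⟩⟩ with hτ
  set ρ := |R| + ∑ i, ‖(sig σ i).t‖ + 3 with hρ
  have p0 : 0 ≤ ∑ i, ‖(sig σ i).t‖ := Finset.sum_nonneg fun _ _ => norm_nonneg _
  have p1 := le_abs_self R
  have p2 := abs_nonneg R
  refine ⟨ρ, round' (σ := σ') (Sq.isOpen ρ) h0 hM (fun x i h => ⟨Sq.of_norm (by
      linarith [(hs x i h).1]), Sq.of_norm (show ‖sig σ i • x‖ < ρ by linarith [(hs x i h).2])⟩)
    (win_oe (A := A) (t := fun a => ⟨⟨1, a⟩, mem a a.2⟩) (fun a b => ?_) (fun a x => rfl)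
      (τ := τ) ?_ (j := Sum.inr) (fun k => rfl) (k1 := (none, 0)) (kI := (none, 1))
      (k2 := (none, 2)) (k3 := (none, 3)) rfl rfl rfl rfl ?_
      (fun u v => (c1 u.1 u.2).symm.trans (c1 v.1 v.2)) (by linarith) fun i x hx => ?_)
    (fun g hg => af_free g.1 fun h => hg (Subtype.ext h)) hev⟩
  · exact Subtype.ext (Af.ext (by simp) (by simp))
  · rw [← AddSubgroup.closure_closure_coe_preimage]
    congr 1
    ext a
    exact ⟨fun ⟨k, e⟩ => ⟨k, congrArg Subtype.val e⟩, fun ⟨k, e⟩ => ⟨k, Subtype.ext e⟩⟩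
  · rintro (i | i) m n k
    · refine ⟨m • τ (some i, 0) + n • τ (some i, 1) + k • τ (some i, 2),
        Subtype.ext (Af.ext (by simp) ?_)⟩
      simp only [Subgroup.coe_mul, Af.mul_t, hσ', sig, Sum.elim_inl, AddSubgroup.coe_add,
        AddSubgroup.coe_zsmul, map_add, map_zsmul, hτ, tau, Option.elim, lie_one]
      ring
    · refine ⟨m • τ (none, 0) + n • τ (none, 1) + k • τ (none, 2),
        Subtype.ext (Af.ext (by simp [hσ', sig]) ?_)⟩
      simp only [Subgroup.coe_mul, Af.mul_t, hσ', sig, Sum.elim_inr, lie_one]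
      exact add_comm _ _
  · refine Sq.of_norm (show ‖(sig σ i).l x + (sig σ i).t‖ < ρ from ?_)
    have := norm_add_le ((sig σ i).l x) (sig σ i).t
    rw [LinearIsometryEquiv.norm_map] at this
    have := Finset.single_le_sum (f := fun i => ‖(sig σ i).t‖) (fun _ _ => norm_nonneg _)
      (mem_univ i)
    linarith

theorem plane_half [Fintype ι] {ψ : ℂ → ι → ℤ} (h0 : Lc ψ) (hM : ∀ x i, |ψ x i| ≤ 1) {R : ℝ}
    (hs : ∀ x i, ψ x i ≠ 0 → ‖x‖ ≤ R ∧ ‖σ i • x‖ ≤ R)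
    {A B : Set ℂ} (hA : IsOpen A) (hB : IsOpen B) (hne : A.Nonempty)
    (hdv : ∀ᶠ x in residual _, dv σ ψ x = 2 * (ind (x ∈ A) - ind (x ∈ B))) :
    Eqd Af (fun x => ind (x ∈ A)) (fun x => ind (x ∈ B)) := by
  have e0 : ∀ x, dv (sig σ) (fun x => Sum.elim (ψ x) 0) x = dv σ ψ x := fun x => by
    simp [dv, Fintype.sum_sum_type, sig]
  obtain ⟨ρ, φ, f1, f2, f4, f3⟩ := plane_round σ (R := R)
    (ψ := fun x => Sum.elim (ψ x) 0) (h0.comp fun a => Sum.elim a 0)
    (by rintro x (i | i) <;> simp [hM])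
    (by
      rintro x (i | i) h
      · exact hs x i h
      · exact absurd rfl h)
    (by
      filter_upwards [hdv] with x hx
      rw [e0, hx]
      exact even_two_mul _)
  set σ' := sig σ with hσ'
  have lA := (Lc.of_isOpen hA).comp ind
  have lB := (Lc.of_isOpen hB).comp ind
  have l1 : ∀ i, Lc fun x => (φ x i).toNat := fun i => f1.comp fun a => (a i).toNat
  have l2 : ∀ i, Lc fun x => (-φ x i).toNat := fun i => f1.comp fun a => (-a i).toNat
  have key : Eqd Af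
      (fun x => ∑ i, (φ x i).toNat + ∑ i, (-φ ((σ' i)⁻¹ • x) i).toNat)
      (fun x => ∑ i, (φ ((σ' i)⁻¹ • x) i).toNat + ∑ i, (-φ x i).toNat) :=
    (Eqd.mk' σ' _ l1 (Eventually.of_forall fun _ => rfl) (Eventually.of_forall fun _ => rfl)).add
    (Eqd.mk' σ' _ l2 (Eventually.of_forall fun _ => rfl) (Eventually.of_forall fun _ => rfl)).symm
  have bd : ∀ (t : ι ⊕ Option ι × Fin 4 → ℤ), (∀ i, |t i| ≤ 1 + 2) →
      ∑ i, (t i).toNat ≤ Fintype.card (ι ⊕ Option ι × Fin 4) * 3 := fun t ht =>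
    Finset.sum_le_card_nsmul _ _ 3 fun i _ => by
      have := abs_le.1 (ht i)
      omega
  refine cancel_all hA hne (D := Sq ρ)
    ((Metric.isBounded_closedBall (x := 0) (r := 2 * ρ)).subset fun x hx =>
      mem_closedBall_zero_iff.2 (Sq.norm hx))
    (Fintype.card (ι ⊕ Option ι × Fin 4) * 3 + Fintype.card (ι ⊕ Option ι × Fin 4) * 3) _
    (fun x => ind (x ∈ B))
    (fun x => ∑ i, (φ ((σ' i)⁻¹ • x) i).toNat + ∑ i, (-φ x i).toNat) lA
    ((Lc.sum fun i => (l1 i).smul (σ' i)⁻¹).comp₂ (Lc.sum l2) (· + ·)) (fun _ => le_rfl)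
    (fun x => Nat.add_le_add (bd _ fun i => f2 _ i) (bd _ fun i => by simpa using f2 x i))
    (fun x hx => ?_) (((Eqd.refl lB).add key).congr ?_ (Eventually.of_forall fun _ => rfl))
  · by_contra hn
    have a1 : ∀ i, φ x i = 0 := fun i => by_contra fun h => hn (f4 _ _ h).1
    have a2 : ∀ i, φ ((σ' i)⁻¹ • x) i = 0 := fun i => by_contra fun h =>
      hn (by simpa using (f4 _ _ h).2)
    simp [a1, a2] at hx
  · filter_upwards [f3, hdv] with x a b
    rw [e0, b] at a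
    have c1 : ∑ i, φ x i = ∑ i, ((φ x i).toNat : ℤ) - ∑ i, ((-φ x i).toNat : ℤ) := by
      rw [← Finset.sum_sub_distrib]
      exact Finset.sum_congr rfl fun i _ => (Int.toNat_sub_toNat_neg _).symm
    have c2 : ∑ i, φ ((σ' i)⁻¹ • x) i = ∑ i, ((φ ((σ' i)⁻¹ • x) i).toNat : ℤ) -
        ∑ i, ((-φ ((σ' i)⁻¹ • x) i).toNat : ℤ) := by
      rw [← Finset.sum_sub_distrib]
      exact Finset.sum_congr rfl fun i _ => (Int.toNat_sub_toNat_neg _).symm
    unfold dv at a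
    rw [c1, c2] at a
    zify
    linarith

end Pool.Agent.H.MP_95d7dd_gt
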