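import Pool.Agent.H.MP_95d7dd_gt.Aff
import Pool.Agent.H.MP_bf94fe_gt.Circle

set_option autoImplicit false

namespace Pool.Agent.H.MP_95d7dd_gt

open Complex Pool.Agent.H.MP_bf94fe_gt

def Sq (ρ : ℝ) : Set ℂ := {x | |x.re| < ρ ∧ |x.im| < ρ}

lemma Sq.of_norm {ρ : ℝ} {x : ℂ} (h : ‖x‖ < ρ) : x ∈ Sq ρ :=
  ⟨(abs_re_le_norm x).trans_lt h, (abs_im_le_norm x).trans_lt h⟩

lemma Sq.norm {ρ : ℝ} {x : ℂ} (h : x ∈ Sq ρ) : ‖x‖ ≤ 2 * ρ := by
  have := norm_le_abs_re_add_abs_im x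
  linarith [h.1, h.2]

lemma btw {w ρ : ℝ} {n i : ℤ} (h0 : |w| < ρ) (h1 : |w + n| < ρ)
    (hi : 0 ≤ i ∧ i ≤ n ∨ n ≤ i ∧ i ≤ 0) : |w + i| < ρ := by
  rw [abs_lt] at *
  rcases hi with ⟨a, b⟩ | ⟨a, b⟩
  · have a' : (0 : ℝ) ≤ i := by exact_mod_cast a
    have b' : (i : ℝ) ≤ n := by exact_mod_cast b
    constructor <;> linarith [h0.1, h1.2]
  · have a' : (n : ℝ) ≤ i := by exact_mod_cast a
    have b' : (i : ℝ) ≤ 0 := by exact_mod_cast b
    constructor <;> linarith [h0.2, h1.1]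

variable {G ι : Type} [Group G] {σ : ι → G} {A : AddSubgroup ℂ} {t : A → G}

lemma t_zero (t_add : ∀ a b, t (a + b) = t a * t b) : t 0 = 1 := by
  simpa using t_add 0 0

lemma line (t_add : ∀ a b, t (a + b) = t a * t b) {a : A} {j : ι} (hj : σ j = t a) {P : Set G}
    {g : G} (n : ℤ) (h : ∀ i : ℤ, (0 ≤ i ∧ i ≤ n ∨ n ≤ i ∧ i ≤ 0) → t (i • a) * g ∈ P) :
    Conn σ P g (t (n • a) * g) := by
  induction n using Int.induction_on with
  | zero =>
    rw [zero_smul, t_zero t_add, one_mul]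
    exact Relation.ReflTransGen.refl
  | succ n ih =>
    refine (ih fun i hi => h i (by omega)).trans (Conn.step (h _ (by omega)) (h _ (by omega))
      ⟨j, Or.inl ?_⟩)
    rw [hj, ← mul_assoc, ← t_add, add_smul, one_smul, add_comm]
  | pred n ih =>
    refine (ih fun i hi => h i (by omega)).trans (Conn.step (h _ (by omega)) (h _ (by omega))
      ⟨j, Or.inr ?_⟩)
    rw [hj, ← mul_assoc, ← t_add, sub_smul, one_smul, add_sub_cancel]

variable (A) in
abbrev Qt := Multiplicative (A ⧸ (Lat 1).addSubgroupOf A)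

def qq (a : A) : Qt A := Multiplicative.ofAdd (QuotientAddGroup.mk a)

lemma qq_add (a b : A) : qq (a + b) = qq a * qq b := rfl

lemma qq_zsmul (n : ℤ) (a : A) : qq (n • a) = qq a ^ n := rfl

lemma qq_eq {a b : A} : qq a = qq b ↔ (a : ℂ) - b ∈ Lat 1 := by
  unfold qq
  rw [Multiplicative.ofAdd.injective.eq_iff, QuotientAddGroup.eq_iff_sub_mem,
    AddSubgroup.mem_addSubgroupOf]
  rfl

lemma qq_conn {κ : Type} {τ : κ → A} (hτ : AddSubgroup.closure (Set.range τ) = ⊤) (u v : Qt A) :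
    Conn (fun k => qq (τ k)) Set.univ u v := by
  have c1 : ∀ a : A, Conn (fun k => qq (τ k)) Set.univ 1 (qq a) := by
    intro a
    have ha : a ∈ AddSubgroup.closure (Set.range τ) := hτ ▸ trivial
    induction ha using AddSubgroup.closure_induction_left with
    | zero => exact Relation.ReflTransGen.refl
    | add_left x hx y hy ih =>
      obtain ⟨i, rfl⟩ := hx
      exact ih.trans (Conn.step trivial trivial ⟨i, Or.inl rfl⟩)
    | neg_add_cancel x hx y hy ih =>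
      obtain ⟨i, rfl⟩ := hx
      exact ih.trans (Conn.step trivial trivial ⟨i, Or.inr (by rw [← qq_add]; simp)⟩)
  obtain ⟨a, ha⟩ := QuotientAddGroup.mk_surjective u.toAdd
  obtain ⟨b, hb⟩ := QuotientAddGroup.mk_surjective v.toAdd
  have e1 : qq a = u := by simp [qq, ha]
  have e2 : qq b = v := by simp [qq, hb]
  exact e1 ▸ e2 ▸ (c1 a).symm.trans (c1 b)

lemma qq_indep {a b : A} (e2 : (a : ℂ) = (√2 : ℝ)) (e3 : (b : ℂ) = (√3 : ℝ)) {m n m' n' : ℤ}
    (h : qq a ^ m * qq b ^ n = qq a ^ m' * qq b ^ n') : m = m' ∧ n = n' := by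
  rw [← qq_zsmul, ← qq_zsmul, ← qq_zsmul, ← qq_zsmul, ← qq_add, ← qq_add, qq_eq] at h
  obtain ⟨k, -, h, -⟩ := h
  have := indep_real (m := m - m') (n := n - n') (k := k) (by
    simp [e2, e3] at h
    push_cast
    linarith)
  omega

lemma qq_oe {κ : Type} {τ : κ → A} (hτ : AddSubgroup.closure (Set.range τ) = ⊤) {k2 k3 : κ}
    (e2 : (τ k2 : ℂ) = (√2 : ℝ)) (e3 : (τ k3 : ℂ) = (√3 : ℝ)) :
    OE (fun k => qq (τ k)) ∅ := by
  refine oe_empty (qq_conn hτ) k2 (fun m n h => (qq_indep e2 e3 (n := 0) (n' := 0)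
    (by simpa using h)).1) (fun g => Or.inl (by rw [mul_comm g⁻¹]; simp)) fun F hF => ?_
  by_contra hc
  push Not at hc
  choose n hn using hc
  exact Set.infinite_of_injective_forall_mem
    (f := fun k : ℤ => qq (τ k2) ^ n (qq (τ k3) ^ k) * qq (τ k3) ^ k)
    (fun k l h => (qq_indep e2 e3 h).2) (fun k => hn _) hF

theorem win_oe [MulAction G ℂ] (t_add : ∀ a b, t (a + b) = t a * t b)
    (ht : ∀ a (x : ℂ), t a • x = x + a) {κ : Type} {τ : κ → A}
    (hτ : AddSubgroup.closure (Set.range τ) = ⊤) {j : κ → ι} (hj : ∀ k, σ (j k) = t (τ k))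
    {k1 kI k2 k3 : κ} (e1 : (τ k1 : ℂ) = 1) (eI : (τ kI : ℂ) = I)
    (e2 : (τ k2 : ℂ) = (√2 : ℝ)) (e3 : (τ k3 : ℂ) = (√3 : ℝ))
    (conj : ∀ i (m n k : ℤ), ∃ a, σ i * t (m • τ k1 + n • τ kI + k • τ k2) = t a * σ i)
    (hgen : ∀ u v : G, Conn σ Set.univ u v) {ρ : ℝ} (hρ : 2 < ρ)
    (hσ : ∀ i (x : ℂ), ‖x‖ ≤ 2 → σ i • x ∈ Sq ρ) (z : ℂ) : OE σ {g : G | g • z ∉ Sq ρ} := by
  intro F hF
  set P := ({g : G | g • z ∉ Sq ρ} ∪ F)ᶜ with hP
  have mP : ∀ g, g ∈ P ↔ g • z ∈ Sq ρ ∧ g ∉ F := fun g => by simp [hP]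
  have lat : ∀ μ ∈ Lat 1, ∃ m n : ℤ, μ = (m • τ k1 + n • τ kI : A) := by
    rintro μ ⟨m, n, h1, h2⟩
    exact ⟨m, n, Complex.ext (by simp [h1, e1, eI]) (by simp [h2, e1, eI])⟩
  have lat' : ∀ m n : ℤ, ((m • τ k1 + n • τ kI : A) : ℂ) ∈ Lat 1 := fun m n =>
    ⟨m, n, by simp [e1, eI], by simp [e1, eI]⟩
  have tinj : ∀ g a b, t a * g = t b * g → a = b := fun g a b h => by
    have := ht a 0
    rw [mul_right_cancel h, ht] at this
    exact Subtype.ext (add_left_cancel this).symm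
  set Fq : G → Set (Qt A) := fun g => qq '' {a | t a * g ∈ F} with hFq
  have fF : ∀ g, (Fq g).Finite := fun g =>
    (hF.preimage (f := fun a => t a * g) fun a _ b _ h => tinj g a b h).image _
  have same : ∀ g a a', qq a' = qq a → qq a ∉ Fq g → (t a * g) • z ∈ Sq ρ →
      (t a' * g) • z ∈ Sq ρ → Conn σ P (t a * g) (t a' * g) := by
    intro g a a' e hn w w'
    obtain ⟨m, n, e⟩ := lat _ (qq_eq.1 e)
    have e' : a' = n • τ kI + (m • τ k1 + a) := Subtype.ext (by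
      rw [sub_eq_iff_eq_add] at e
      rw [e]
      push_cast
      ring)
    have nF : ∀ m n : ℤ, t (n • τ kI) * (t (m • τ k1) * (t a * g)) ∉ F := fun m n h =>
      hn ⟨n • τ kI + (m • τ k1 + a), by simpa only [Set.mem_setOf_eq, t_add, mul_assoc],
        qq_eq.2 (by
          convert lat' m n using 1
          push_cast
          ring)⟩
    rw [e', t_add, t_add, mul_assoc, mul_assoc] at w' ⊢
    set g' := t a * g
    simp only [mul_smul (t _), ht, Sq, Set.mem_setOf_eq] at w'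
    simp [e1, eI] at w'
    refine (line t_add (hj k1) m fun i hi => (mP _).2 ⟨?_, ?_⟩).trans
      (line t_add (hj kI) n fun i hi => (mP _).2 ⟨?_, nF _ _⟩)
    · rw [mul_smul, ht]
      exact ⟨by simpa [e1] using btw w.1 w'.1 hi, by simpa [e1] using w.2⟩
    · simpa [t_zero t_add] using nF i 0
    · rw [mul_smul, mul_smul, ht, ht]
      exact ⟨by simpa [e1, eI] using w'.1, by simpa [e1, eI] using btw w.2 w'.2 hi⟩
  have cen : ∀ g (a : A), ∃ m n : ℤ, ‖(t (m • τ k1 + n • τ kI + a) * g) • z‖ ≤ 2 := by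
    intro g a
    obtain ⟨μ, h1, h2⟩ := Lat.near one_pos (g • z + a)
    obtain ⟨m, n, rfl⟩ := lat _ h1
    refine ⟨m, n, ?_⟩
    rw [mul_smul, ht]
    convert h2 using 2
    · push_cast
      ring
    · ring
  have qc : ∀ (m n : ℤ) (a : A), qq (m • τ k1 + n • τ kI + a) = qq a := fun m n a =>
    qq_eq.2 (by simpa using lat' m n)
  have cen' : ∀ g (c : Qt A), ∃ a, qq a = c ∧ ‖(t a * g) • z‖ ≤ 2 := by
    intro g c
    obtain ⟨a, ha⟩ := QuotientAddGroup.mk_surjective c.toAdd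
    obtain ⟨m, n, h⟩ := cen g a
    exact ⟨_, (qc m n a).trans (by simp [qq, ha]), h⟩
  have lift : ∀ g c c', Conn (fun k => qq (τ k)) (∅ ∪ Fq g)ᶜ c c' → c ∉ Fq g → ∀ a a',
      qq a = c → qq a' = c' → (t a * g) • z ∈ Sq ρ → (t a' * g) • z ∈ Sq ρ →
      Conn σ P (t a * g) (t a' * g) := by
    intro g c c' h hc a
    induction h with
    | refl => exact fun a' q1 q2 => same g a a' (q2.trans q1.symm) (q1 ▸ hc)
    | @tail b d _ h2 ih =>
      intro a' q1 q2 w w'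
      obtain ⟨hb, hd, k, e⟩ := h2
      have hb' : b ∉ Fq g := fun h => hb (Or.inr h)
      have hd' : d ∉ Fq g := fun h => hd (Or.inr h)
      have ed : ∀ a1 : A, ‖(t a1 * g) • z‖ ≤ 2 → (t a1 * g) • z ∈ Sq ρ ∧
          (t (τ k + a1) * g) • z ∈ Sq ρ ∧ Adj σ (t a1 * g) (t (τ k + a1) * g) := fun a1 h =>
        ⟨Sq.of_norm (h.trans_lt hρ), by rw [t_add, ← hj, mul_assoc, mul_smul]; exact hσ _ _ h,
          j k, Or.inl (by rw [t_add, hj, mul_assoc])⟩
      rcases e with e | e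
      · obtain ⟨a1, r1, r2⟩ := cen' g b
        obtain ⟨s1, s2, s3⟩ := ed a1 r2
        have r3 : qq (τ k + a1) = d := by rw [qq_add, r1, e]
        exact ((ih a1 q1 r1 w s1).trans (Conn.step ((mP _).2 ⟨s1, fun h => hb' ⟨_, h, r1⟩⟩)
          ((mP _).2 ⟨s2, fun h => hd' ⟨_, h, r3⟩⟩) s3)).trans
          (same g _ a' (q2.trans r3.symm) (r3 ▸ hd') s2 w')
      · obtain ⟨a1, r1, r2⟩ := cen' g d
        obtain ⟨s1, s2, s3⟩ := ed a1 r2
        have r3 : qq (τ k + a1) = b := by rw [qq_add, r1, e]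
        exact ((ih _ q1 r3 w s2).trans (Conn.step ((mP _).2 ⟨s2, fun h => hb' ⟨_, h, r3⟩⟩)
          ((mP _).2 ⟨s1, fun h => hd' ⟨_, h, r1⟩⟩) s3.symm)).trans
          (same g _ a' (q2.trans r1.symm) (r1 ▸ hd') s1 w')
  choose Lq l1 l2 using fun g => qq_oe hτ e2 e3 (Fq g) (fF g)
  have fin : ∀ g c, {a | qq a = c ∧ (t a * g) • z ∈ Sq ρ}.Finite := by
    intro g c
    obtain ⟨a0, rfl, -⟩ := cen' g c
    refine ((Lat.finite one_pos (g • z + a0) (2 * ρ)).preimage (f := fun a : A => (a : ℂ) - a0)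
      fun a _ b _ h => Subtype.ext (sub_left_injective h)).subset fun a ha => ⟨qq_eq.1 ha.1, ?_⟩
    have := Sq.norm ha.2
    rw [mul_smul, ht] at this
    convert this using 2
    ring
  set L := ⋃ f ∈ F, ⋃ c ∈ Lq f ∪ Fq f,
    (fun a => t a * f) '' {a | qq a = c ∧ (t a * f) • z ∈ Sq ρ} with hL
  have fL : L.Finite := hF.biUnion fun f _ => ((l1 f).union (fF f)).biUnion fun c _ =>
    (fin f c).image _
  have mL : ∀ f ∈ F, ∀ a, (t a * f) • z ∈ Sq ρ → t a * f ∉ L → qq a ∉ Lq f ∪ Fq f :=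
    fun f hf a w h c => h (Set.mem_biUnion hf (Set.mem_biUnion c ⟨a, ⟨rfl, w⟩, rfl⟩))
  have gP : ∀ u : G, u • z ∈ Sq ρ → u ∉ L → u ∈ P := fun u w h => (mP u).2 ⟨w, fun c => by
    have e : t 0 * u = u := by rw [t_zero t_add, one_mul]
    exact mL u c 0 (e.symm ▸ w) (e.symm ▸ h) (Or.inr ⟨0, show t 0 * u ∈ F from e.symm ▸ c, rfl⟩)⟩
  have cA : ∀ g a a', (t a * g) • z ∈ Sq ρ → t a * g ∉ L → (t a' * g) • z ∈ Sq ρ →
      t a' * g ∉ L → Conn σ P (t a * g) (t a' * g) := by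
    intro g a a' w n w' n'
    by_cases h : ∃ b, t b * g ∈ F
    · obtain ⟨b, hb⟩ := h
      have e : ∀ a, t a * g = t (a - b) * (t b * g) := fun a => by
        rw [← mul_assoc, ← t_add, sub_add_cancel]
      rw [e a] at w n ⊢
      rw [e a'] at w' n' ⊢
      have r1 := mL _ hb _ w n
      have r2 := mL _ hb _ w' n'
      exact lift _ _ _ (l2 _ _ _ (fun c => c.elim id fun c => r1 (Or.inl c))
        fun c => c.elim id fun c => r2 (Or.inl c)) (fun c => r1 (Or.inr c)) _ _ rfl rfl w w'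
    · have e : ∀ c, c ∉ Fq g := fun c ⟨b, hb, _⟩ => h ⟨b, hb⟩
      exact lift _ _ _ ((qq_conn hτ _ _).mono fun c _ h => h.elim id (e c)) (e _) _ _ rfl rfl w w'
  have cB : ∀ g i, ∃ b a, (t b * g) • z ∈ Sq ρ ∧ t b * g ∉ L ∧ (t a * (σ i * g)) • z ∈ Sq ρ ∧
      t a * (σ i * g) ∉ L ∧ Adj σ (t b * g) (t a * (σ i * g)) := by
    intro g i
    choose m n h using fun k : ℤ => cen g (k • τ k2)
    by_contra hc
    push Not at hc
    refine Set.infinite_of_injective_forall_mem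
      (f := fun k : ℤ => t (m k • τ k1 + n k • τ kI + k • τ k2) * g) (fun k l e => ?_)
      (fun k => ?_) (fL.union (fL.preimage (mul_right_injective (σ i)).injOn))
    · have := congrArg qq (tinj _ _ _ e)
      rw [qc, qc, qq_zsmul, qq_zsmul] at this
      exact (qq_indep e2 e3 (n := 0) (n' := 0) (by simpa using this)).1
    · by_contra hn
      obtain ⟨a, ha⟩ := conj i (m k) (n k) k
      have e : t a * (σ i * g) = σ i * (t (m k • τ k1 + n k • τ kI + k • τ k2) * g) := by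
        rw [← mul_assoc, ← ha, mul_assoc]
      refine hc _ a (Sq.of_norm ((h k).trans_lt hρ)) (fun c => hn (Or.inl c)) ?_
        (fun c => hn (Or.inr (by rw [e] at c; exact c))) ⟨i, Or.inl e⟩
      rw [e, mul_smul]
      exact hσ _ _ (h k)
  have fin : ∀ g g', Conn σ Set.univ g g' → ∀ a a', (t a * g) • z ∈ Sq ρ → t a * g ∉ L →
      (t a' * g') • z ∈ Sq ρ → t a' * g' ∉ L → Conn σ P (t a * g) (t a' * g') := by
    intro g g' h a
    induction h with
    | refl => exact cA g a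
    | @tail b d _ h2 ih =>
      intro a' w n w' n'
      obtain ⟨-, -, i, rfl | rfl⟩ := h2
      · obtain ⟨c, c', r1, r2, r3, r4, r5⟩ := cB b i
        exact ((ih c w n r1 r2).trans (Conn.step (gP _ r1 r2) (gP _ r3 r4) r5)).trans
          (cA _ _ _ r3 r4 w' n')
      · obtain ⟨c, c', r1, r2, r3, r4, r5⟩ := cB d i
        exact ((ih c' w n r3 r4).trans (Conn.step (gP _ r3 r4) (gP _ r1 r2) r5.symm)).trans
          (cA _ _ _ r1 r2 w' n')
  refine ⟨L, fL, fun u v hu hv => ?_⟩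
  have := fin u v (hgen u v) 0 0
  simp only [t_zero t_add, one_mul] at this
  simp only [Set.mem_union, Set.mem_setOf_eq, not_or, not_not] at hu hv
  exact this hu.1 hu.2 hv.1 hv.2

end Pool.Agent.H.MP_95d7dd_gt
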